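import Pool.Agent.H65.TL.Defs

/-!
# Fewer than `n` vertices see less than a `1/(2n)` part of a large set

Proof: `few_low` with `m = (|M| - 2n)/n` (natural division): if `2 n s < |M|` and `4 n ≤ |M|` then
`n s ≤ |M| - 2 n`, so `s ≤ m`, and `n m + 2 n ≤ |M|`.
-/

set_option autoImplicit false
set_option linter.unusedSectionVars false

namespace Pool.Agent.H65.TL

open Finset Pool.Agent.H38.Ram

variable {V : Type*} [DecidableEq V] [Fintype V] (G : SimpleGraph V) [DecidableRel G.Adj]

theorem low_half {n : ℕ} (hJ : Joined G n) (hn : 1 ≤ n) (M : Finset V) (hM : 4 * n ≤ M.card) :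
    (Finset.univ.filter (fun x => 2 * n * (nb G M x).card < M.card)).card ≤ n := by
  refine (few_low G hJ M _ ((M.card - 2 * n) / n) ?_ ?_).le
  · intro v hv
    rw [Finset.mem_filter] at hv
    rw [Nat.le_div_iff_mul_le hn]
    have h1 := hv.2
    have h2 : 2 * n * (nb G M v).card = 2 * ((nb G M v).card * n) := by ring
    omega
  · have h1 := Nat.mul_div_le (M.card - 2 * n) n
    omega

end Pool.Agent.H65.TL
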