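import Pool.Agent.H65.TL.Red
import Pool.Agent.H65.TL.Low

/-!
# Apex vertices

Choose `z_1, z_2, …` one after the other in the common neighbourhood of the earlier ones, with
`|N(z_1) ∩ … ∩ N(z_i)| (2n)^i ≥ card V` (`low_half` for the common neighbourhood `M`, `|M| ≥ 4n`, and
`x ∈ M` outside the at most `n` low vertices).  They form a clique.  The graph `G` induced on the
common neighbourhood of all is joined and contains the graph obtained from `H` by removing the
edges at `Z` (`embed`); send `Z` to the clique.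
-/

set_option autoImplicit false
set_option linter.unusedSectionVars false

namespace Pool.Agent.H65.TL

open Finset Pool.Agent.H38.Ram

variable {V : Type*} [DecidableEq V] [Fintype V] (G : SimpleGraph V) [DecidableRel G.Adj]

/-- `H` without the edges at `Z`. -/
def cut {W : Type*} (H : SimpleGraph W) (Z : Finset W) : SimpleGraph W where
  Adj u v := H.Adj u v ∧ u ∉ Z ∧ v ∉ Z
  symm := ⟨fun _ _ h => ⟨h.1.symm, h.2.2, h.2.1⟩⟩
  loopless := ⟨fun v h => H.loopless.irrefl v h.1⟩

instance {W : Type*} [DecidableEq W] (H : SimpleGraph W) [DecidableRel H.Adj] (Z : Finset W) :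
    DecidableRel (cut H Z).Adj :=
  fun u v => inferInstanceAs (Decidable (H.Adj u v ∧ u ∉ Z ∧ v ∉ Z))

private theorem apex_clique {k n : ℕ} (hJ : Joined G n) (hn : 1 ≤ n) (Z : Finset (Fin k)) :
    (2 * n) ^ Z.card * (4 * n) ≤ Fintype.card V →
    ∃ ζ : Fin k → V, (∀ u ∈ Z, ∀ v ∈ Z, u ≠ v → G.Adj (ζ u) (ζ v)) ∧
      Fintype.card V ≤ (2 * n) ^ Z.card * (comN G ζ Z).card := by
  induction Z using Finset.induction_on with
  | empty =>
    intro hV
    simp only [Finset.card_empty, pow_zero, one_mul] at hV
    have hpos : 0 < Fintype.card V := by omega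
    obtain ⟨v0⟩ := Fintype.card_pos_iff.1 hpos
    refine ⟨fun _ => v0, by simp, ?_⟩
    have : comN G (fun _ : Fin k => v0) ∅ = Finset.univ := by
      ext z; simp [mem_comN]
    rw [this, Finset.card_univ]
    simp
  | insert z Z' hz ih =>
    intro hV
    rw [Finset.card_insert_of_notMem hz] at hV
    have h2n : 1 ≤ 2 * n := by omega
    have hV' : (2 * n) ^ Z'.card * (4 * n) ≤ Fintype.card V := by
      refine le_trans (Nat.mul_le_mul_right _ ?_) hV
      exact Nat.pow_le_pow_right h2n (Nat.le_succ _)
    obtain ⟨ζ', hcl, hcom⟩ := ih hV'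
    set M := comN G ζ' Z' with hM
    have hpow : 0 < (2 * n) ^ Z'.card := by positivity
    have hMc : 2 * n * (4 * n) ≤ M.card := by
      have h1 : (2 * n) ^ Z'.card * (2 * n * (4 * n)) ≤ (2 * n) ^ Z'.card * M.card := by
        refine le_trans (le_of_eq ?_) (hV.trans hcom)
        ring
      exact Nat.le_of_mul_le_mul_left h1 hpow
    have hM4 : 4 * n ≤ M.card := by nlinarith
    have hlow := low_half G hJ hn M hM4
    have hlt : (Finset.univ.filter (fun x => 2 * n * (nb G M x).card < M.card)).card < M.card := by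
      omega
    obtain ⟨x, hxM, hx⟩ := Finset.exists_mem_notMem_of_card_lt_card hlt
    simp only [Finset.mem_filter, Finset.mem_univ, true_and, not_lt] at hx
    refine ⟨Function.update ζ' z x, ?_, ?_⟩
    · intro u hu v hv huv
      rw [Finset.mem_insert] at hu hv
      have hxM' := (mem_comN G).1 hxM
      rcases hu with rfl | hu
      · rcases hv with rfl | hv
        · exact absurd rfl huv
        · rw [Function.update_self, Function.update_of_ne (fun h => huv h.symm)]
          exact (hxM' v hv).symm
      · have huz : u ≠ z := fun h => hz (h ▸ hu)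
        rcases hv with rfl | hv
        · rw [Function.update_self, Function.update_of_ne huz]
          exact hxM' u hu
        · have hvz : v ≠ z := fun h => hz (h ▸ hv)
          rw [Function.update_of_ne huz, Function.update_of_ne hvz]
          exact hcl u hu v hv huv
    · have hc : comN G (Function.update ζ' z x) (insert z Z') = nb G M x := by
        ext w
        rw [mem_comN, mem_nb, hM, mem_comN]
        constructor
        · intro h
          refine ⟨fun u hu => ?_, ?_⟩
          · have huz : u ≠ z := fun h' => hz (h' ▸ hu)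
            have := h u (Finset.mem_insert_of_mem hu)
            rwa [Function.update_of_ne huz] at this
          · have := h z (Finset.mem_insert_self _ _)
            rwa [Function.update_self] at this
        · rintro ⟨h1, h2⟩ u hu
          rw [Finset.mem_insert] at hu
          rcases hu with rfl | hu
          · rw [Function.update_self]; exact h2
          · have huz : u ≠ z := fun h' => hz (h' ▸ hu)
            rw [Function.update_of_ne huz]; exact h1 u hu
      rw [hc, Finset.card_insert_of_notMem hz]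
      calc Fintype.card V ≤ (2 * n) ^ Z'.card * M.card := hcom
        _ ≤ (2 * n) ^ Z'.card * (2 * n * (nb G M x).card) := Nat.mul_le_mul_left _ hx
        _ = _ := by ring

private theorem apex_joined {n : ℕ} (hJ : Joined G n) (M : Finset V) :
    Joined (G.comap (Subtype.val : {v // v ∈ M} → V)) n := by
  intro A B hAB hA hB
  have hd : Disjoint (A.map (Function.Embedding.subtype _)) (B.map (Function.Embedding.subtype _)) := by
    rw [Finset.disjoint_map]
    exact hAB
  obtain ⟨a, ha, b, hb, hab⟩ := hJ _ _ hd (by rw [Finset.card_map]; exact hA)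
    (by rw [Finset.card_map]; exact hB)
  rw [Finset.mem_map] at ha hb
  obtain ⟨a', ha', rfl⟩ := ha
  obtain ⟨b', hb', rfl⟩ := hb
  exact ⟨a', ha', b', hb', hab⟩

theorem apex {k : ℕ} {H : SimpleGraph (Fin k)} [DecidableRel H.Adj] {n s t : ℕ} (ht : 2 ≤ t)
    (Z : Finset (Fin k)) (hZ : Z.card ≤ s)
    (p : Fin k → ℕ) (T : Finset (Fin k)) (hH : Ordered (cut H Z) t p T)
    (hJ : Joined G n) (hn : 1 ≤ n)
    (hV : 2 ^ s * (10000 * 2 ^ (k + t) * (k + 1) ^ 5) * n ^ (s + t) ≤ Fintype.card V) :
    H.IsContained G := by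
  classical
  set C0 := 10000 * 2 ^ (k + t) * (k + 1) ^ 5 with hC0
  have hC0' : 4 ≤ C0 := by
    have h1 : 1 ≤ 2 ^ (k + t) := Nat.one_le_two_pow
    have h2 : 1 ≤ (k + 1) ^ 5 := Nat.one_le_pow _ _ (by omega)
    have h3 : 10000 * 1 * 1 ≤ 10000 * 2 ^ (k + t) * (k + 1) ^ 5 :=
      Nat.mul_le_mul (Nat.mul_le_mul_left _ h1) h2
    omega
  have h2n : 1 ≤ 2 * n := by omega
  have hpow : (2 * n) ^ Z.card ≤ (2 * n) ^ s := Nat.pow_le_pow_right h2n hZ
  have hVs : (2 * n) ^ s * (C0 * n ^ t) ≤ Fintype.card V := by
    refine le_trans (le_of_eq ?_) hV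
    rw [mul_pow, pow_add]; ring
  have hnt : n ≤ n ^ t := Nat.le_self_pow (by omega) n
  have h4 : 4 * n ≤ C0 * n ^ t := Nat.mul_le_mul hC0' hnt
  have hVZ : (2 * n) ^ Z.card * (4 * n) ≤ Fintype.card V :=
    (Nat.mul_le_mul hpow h4).trans hVs
  obtain ⟨ζ, hcl, hcom⟩ := apex_clique G hJ hn Z hVZ
  set M := comN G ζ Z with hM
  have hMc : C0 * n ^ t ≤ M.card := by
    have h1 : (2 * n) ^ s * (C0 * n ^ t) ≤ (2 * n) ^ s * M.card :=
      hVs.trans (hcom.trans (Nat.mul_le_mul_right _ hpow))
    exact Nat.le_of_mul_le_mul_left h1 (by positivity)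
  have hJ' := apex_joined G hJ M
  have hcard : Fintype.card {v // v ∈ M} = M.card := Fintype.card_coe M
  have hcont := embed (G.comap (Subtype.val : {v // v ∈ M} → V)) ht p T hH hJ' hn
    (by rw [hcard]; exact hMc)
  obtain ⟨f⟩ := hcont
  have hfM : ∀ u ∈ Z, ∀ v, G.Adj (ζ u) (f v).1 := by
    intro u hu v
    exact (mem_comN G).1 (f v).2 u hu
  refine ⟨⟨⟨fun v => if v ∈ Z then ζ v else (f v).1, ?_⟩, ?_⟩⟩
  · intro u v huv
    show G.Adj (if u ∈ Z then ζ u else (f u).1) (if v ∈ Z then ζ v else (f v).1)
    by_cases hu : u ∈ Z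
    · by_cases hv : v ∈ Z
      · rw [if_pos hu, if_pos hv]
        exact hcl u hu v hv huv.ne
      · rw [if_pos hu, if_neg hv]
        exact hfM u hu v
    · by_cases hv : v ∈ Z
      · rw [if_neg hu, if_pos hv]
        exact (hfM v hv u).symm
      · rw [if_neg hu, if_neg hv]
        have h1 : (cut H Z).Adj u v := ⟨huv, hu, hv⟩
        exact f.toHom.map_adj h1
  · intro u v huv
    change (if u ∈ Z then ζ u else (f u).1) = (if v ∈ Z then ζ v else (f v).1) at huv
    by_contra hne
    by_cases hu : u ∈ Z
    · by_cases hv : v ∈ Z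
      · rw [if_pos hu, if_pos hv] at huv
        exact (hcl u hu v hv hne).ne huv
      · rw [if_pos hu, if_neg hv] at huv
        exact (hfM u hu v).ne huv
    · by_cases hv : v ∈ Z
      · rw [if_neg hu, if_pos hv] at huv
        exact (hfM v hv u).ne huv.symm
      · rw [if_neg hu, if_neg hv] at huv
        exact hne (f.injective (Subtype.ext huv))

end Pool.Agent.H65.TL
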