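import Pool.Agent.H38.Ram.Chain

/-!
# Ordered graphs against `K_{n,n}`: definitions

`V` is the vertex set of the host graph `G`, with no bipartite hole (`Joined G n`).
`nb G M x` is the set of neighbours of `x` in `M`; `poor G q univ v` is the set of all `u` having
fewer than `q` common neighbours with `v` (`mem_poor`, `mem_poor_comm`, `mem_cn`).
-/

set_option autoImplicit false
set_option linter.unusedSectionVars false

namespace Pool.Agent.H65.TL

open Finset Pool.Agent.H38.Ram

variable {V : Type*} [DecidableEq V] [Fintype V] (G : SimpleGraph V) [DecidableRel G.Adj]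

/-- Common neighbours of the images of the elements of `A`. -/
def comN {W : Type*} (φ : W → V) (A : Finset W) : Finset V :=
  Finset.univ.filter (fun z => ∀ u ∈ A, G.Adj (φ u) z)

lemma mem_comN {W : Type*} {φ : W → V} {A : Finset W} {z : V} :
    z ∈ comN G φ A ↔ ∀ u ∈ A, G.Adj (φ u) z := by
  simp [comN]

/-- The state of the embedding: `Old` is the set of embedded vertices, `φ` the embedding,
`F` the set of free vertices of `H`. -/
structure St {W : Type*} [DecidableEq W] (H : SimpleGraph W) (n q r : ℕ) (F Old : Finset W)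
    (φ : W → V) : Prop where
  inj : ∀ u ∈ Old, ∀ v ∈ Old, u ≠ v → φ u ≠ φ v
  rich : ∀ u ∈ Old, ∀ v ∈ Old, u ≠ v → φ v ∉ poor G q Finset.univ (φ u)
  adj : ∀ u ∈ Old, ∀ v ∈ Old, H.Adj u v → G.Adj (φ u) (φ v)
  com : ∀ A : Finset W, A ⊆ Old → A ⊆ F → A.card + 1 ≤ r →
    Fintype.card V ≤ (2 * n) ^ A.card * (comN G φ A).card

/-- The earlier neighbours of `v` for the order given by `p`. -/
def back {k : ℕ} (H : SimpleGraph (Fin k)) [DecidableRel H.Adj] (p : Fin k → ℕ) (v : Fin k) :
    Finset (Fin k) :=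
  Finset.univ.filter (fun u => H.Adj u v ∧ p u < p v)

lemma mem_back {k : ℕ} {H : SimpleGraph (Fin k)} [DecidableRel H.Adj] {p : Fin k → ℕ}
    {v u : Fin k} : u ∈ back H p v ↔ H.Adj u v ∧ p u < p v := by
  simp [back]

/-- The condition on the vertices of the core. -/
def CoreCond {k : ℕ} (H : SimpleGraph (Fin k)) [DecidableRel H.Adj] (r : ℕ) (p : Fin k → ℕ)
    (v : Fin k) : Prop :=
  (back H p v).card ≤ 1 ∨
  ((back H p v).card ≤ 2 ∧
    ∃ x ∈ back H p v, back H p x = ∅ ∧ ∀ u ∈ back H p v, p u ≤ p x) ∨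
  ((back H p v).card ≤ r ∧ ∀ u ∈ back H p v, back H p u = ∅)

/-- The class of graphs.  `p` orders the vertices, `T` is a set of top vertices.  A vertex outside
`T` has all its earlier neighbours outside `T`, and they are: at most one; or at most two, the
later of which has no earlier neighbour; or at most `r`, none of which has an earlier neighbour.
A vertex of `T` has at most one earlier neighbour, or at most two, both outside `T`. -/
def Ordered {k : ℕ} (H : SimpleGraph (Fin k)) [DecidableRel H.Adj] (r : ℕ) (p : Fin k → ℕ)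
    (T : Finset (Fin k)) : Prop :=
  Function.Injective p ∧ ∀ v : Fin k,
    (v ∉ T → (∀ u ∈ back H p v, u ∉ T) ∧ CoreCond H r p v) ∧
    (v ∈ T → (back H p v).card ≤ 1 ∨ ((back H p v).card ≤ 2 ∧ ∀ u ∈ back H p v, u ∉ T))

/-- The numerical conditions (`k` vertices of `H`, `N` vertices of the host). -/
structure Num (n q D r k N : ℕ) : Prop where
  hn : 1 ≤ n
  hr : 2 ≤ r
  hkq : k ≤ q
  hD1 : n * q + 2 * n ≤ D
  hD2 : (10 * k + 20) * n ≤ D
  hV2 : (2 * n) ^ (r - 1) * ((10 * k + 20) * n) ≤ N
  hV3 : (2 ^ k + 3 * k + 2) * n + k * (2 * (16 * (k + 1) ^ 2) * n ^ 2)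
      + k * k * (4 * (16 * (k + 1) ^ 2) * n ^ 2 * q) < N

end Pool.Agent.H65.TL
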