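import Pool.Agent.H65.TL.Defs

/-!
# Common neighbourhoods of old vertices are large

`A = ∅`: `comN = univ`, `hV2` (`(2n)^(r-1) ≥ 1`); `A = {u}`: `comN = nb G univ (φ u)`, `hmin`, `hD2`;
`A ⊆ F`: `St.com`, `(2n)^|A| ≤ (2n)^(r-1)`, `hV2`, cancel.
-/

set_option autoImplicit false
set_option linter.unusedSectionVars false

namespace Pool.Agent.H65.TL

open Finset Pool.Agent.H38.Ram

variable {V : Type*} [DecidableEq V] [Fintype V] (G : SimpleGraph V) [DecidableRel G.Adj]

theorem card_comN {k : ℕ} {H : SimpleGraph (Fin k)} {n q D r : ℕ}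
    (hNum : Num n q D r k (Fintype.card V))
    (hmin : ∀ v : V, D ≤ (nb G Finset.univ v).card)
    {F Old : Finset (Fin k)} {φ : Fin k → V} (hSt : St G H n q r F Old φ)
    (A : Finset (Fin k)) (hA : A ⊆ Old) (hA1 : A.card ≤ 1 ∨ (A ⊆ F ∧ A.card + 1 ≤ r)) :
    (10 * k + 20) * n ≤ (comN G φ A).card := by
  have hn := hNum.hn
  have hpos : 0 < (2 * n) ^ (r - 1) := Nat.pow_pos (by omega)
  rcases hA1 with h1 | ⟨hF, hr⟩
  · rcases Finset.eq_empty_or_nonempty A with h0 | ⟨u, hu⟩
    · have h2 : comN G φ A = Finset.univ := by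
        ext z
        rw [mem_comN, h0]
        simp
      rw [h2, Finset.card_univ]
      have h3 := hNum.hV2
      have h4 : (10 * k + 20) * n ≤ (2 * n) ^ (r - 1) * ((10 * k + 20) * n) :=
        Nat.le_mul_of_pos_left _ hpos
      omega
    · have h0 : A = {u} := by
        apply Finset.eq_singleton_iff_unique_mem.2
        refine ⟨hu, fun w hw => ?_⟩
        exact Finset.card_le_one.1 h1 w hw u hu
      have h2 : comN G φ A = nb G Finset.univ (φ u) := by
        ext z
        rw [mem_comN, mem_nb, h0]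
        simp
      rw [h2]
      exact hNum.hD2.trans (hmin _)
  · have h2 := hSt.com A hA hF hr
    have h3 := hNum.hV2
    have h4 : (2 * n) ^ A.card ≤ (2 * n) ^ (r - 1) :=
      Nat.pow_le_pow_right (by omega) (by omega)
    have h5 : (2 * n) ^ (r - 1) * ((10 * k + 20) * n) ≤ (2 * n) ^ (r - 1) * (comN G φ A).card :=
      (h3.trans h2).trans (Nat.mul_le_mul_right _ h4)
    exact Nat.le_of_mul_le_mul_left h5 hpos

/-- Few vertices are poor with a given vertex. -/
theorem poor_le {n q D r k : ℕ} (hJ : Joined G n) (hNum : Num n q D r k (Fintype.card V))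
    (hmin : ∀ v : V, D ≤ (nb G Finset.univ v).card) (v : V) :
    (poor G q Finset.univ v).card ≤ n := by
  refine (poor_card G hJ q Finset.univ v ?_).le
  rw [not_mem_low]
  exact hNum.hD1.trans (hmin v)

end Pool.Agent.H65.TL
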