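import Pool.Agent.H65.TL.Step
import Pool.Agent.H65.TL.ExtA

/-!
# One round of the embedding

`X` (at most one vertex) gets the image `x` of the step lemma, the vertices `v ∈ I` get `y v`.
Proof.  `B0 = φ(Old) ∪ ⋃ u ∈ Old, poor (φ u)` has at most `k + k n` elements (`poor_le`).
`M v = comN φ (A v) \ B0` has at least `(10k+20) n - 2k n ≥ 8 (k+1) n` elements (`card_comN`).
`B = B0 ∪ ⋃ A₀ ⊆ Old ∩ F, |A₀| + 2 ≤ r, {x | 2 n |N(x) ∩ comN φ A₀| < |comN φ A₀|}` (`low_half`),
`|B| ≤ (2k + 2^k) n`.  `step` with `M`, `B` gives `x`, `y`;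
`φ' v = y v` on `I`, `x` on `X`, `φ v` elsewhere.
`com` for `A ∋ x`: `comN φ' A = nb (comN φ (A \ {x})) x`.  `rich`: `mem_poor_comm`.
-/

set_option autoImplicit false
set_option linter.unusedSectionVars false

namespace Pool.Agent.H65.TL

open Finset Pool.Agent.H38.Ram

variable {V : Type*} [DecidableEq V] [Fintype V] (G : SimpleGraph V) [DecidableRel G.Adj]

theorem ext {k : ℕ} {H : SimpleGraph (Fin k)} {n q D r : ℕ} (hJ : Joined G n)
    (hNum : Num n q D r k (Fintype.card V))
    (hmin : ∀ v : V, D ≤ (nb G Finset.univ v).card)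
    {F Old : Finset (Fin k)} {φ : Fin k → V} (hSt : St G H n q r F Old φ)
    (I X : Finset (Fin k)) (A : Fin k → Finset (Fin k))
    (hOI : Disjoint Old I) (hOX : Disjoint Old X) (hIX : Disjoint I X) (hX1 : X.card ≤ 1)
    (hIF : Disjoint I F)
    (hA : ∀ v ∈ I, A v ⊆ Old ∧ ((A v).card ≤ 1 ∨ (A v ⊆ F ∧ (A v).card + 1 ≤ r)))
    (hIO : ∀ v ∈ I, ∀ u ∈ Old, H.Adj u v → u ∈ A v)
    (hII : ∀ v ∈ I, ∀ u ∈ I, ¬ H.Adj u v)
    (hXO : ∀ x ∈ X, ∀ u ∈ Old, ¬ H.Adj u x) :
    ∃ φ' : Fin k → V, St G H n q r F (Old ∪ X ∪ I) φ' := by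
  classical
  obtain ⟨hn, hr, hkq, hD1, hD2, hV2, hV3⟩ := id hNum
  have hOldk : Old.card ≤ k := by
    have h := Finset.card_le_univ Old
    rwa [Fintype.card_fin] at h
  have hIk : I.card ≤ k := by
    have h := Finset.card_le_univ I
    rwa [Fintype.card_fin] at h
  set B0 : Finset V := Old.image φ ∪ Old.biUnion (fun u => poor G q Finset.univ (φ u)) with hB0
  set Fam : Finset (Finset (Fin k)) := ((Old ∩ F).powerset).filter (fun A0 => A0.card + 2 ≤ r)
    with hFam
  set B1 : Finset V := Fam.biUnion (fun A0 => Finset.univ.filter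
    (fun x => 2 * n * (nb G (comN G φ A0) x).card < (comN G φ A0).card)) with hB1
  have hB0c : B0.card ≤ k + k * n := by
    refine (Finset.card_union_le _ _).trans ?_
    have h1 : (Old.image φ).card ≤ k := Finset.card_image_le.trans hOldk
    have h2 : (Old.biUnion (fun u => poor G q Finset.univ (φ u))).card ≤ k * n := by
      refine (Finset.card_biUnion_le_card_mul Old _ n
        (fun u _ => poor_le G hJ hNum hmin (φ u))).trans ?_
      exact Nat.mul_le_mul_right _ hOldk
    omega
  have hFamc : Fam.card ≤ 2 ^ k := by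
    refine (Finset.card_filter_le _ _).trans ?_
    rw [Finset.card_powerset]
    refine Nat.pow_le_pow_right (by norm_num) ?_
    exact (Finset.card_le_card Finset.inter_subset_left).trans hOldk
  have hB1c : B1.card ≤ 2 ^ k * n := by
    refine (Finset.card_biUnion_le_card_mul Fam _ n ?_).trans (Nat.mul_le_mul_right _ hFamc)
    intro A0 hA0
    rw [hFam, Finset.mem_filter, Finset.mem_powerset] at hA0
    obtain ⟨hA1, hA2⟩ := hA0
    refine low_half G hJ hn _ ?_
    have h3 := card_comN G hNum hmin hSt A0 (hA1.trans Finset.inter_subset_left)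
      (Or.inr ⟨hA1.trans Finset.inter_subset_right, by omega⟩)
    refine le_trans ?_ h3
    exact Nat.mul_le_mul_right _ (by omega)
  have hkn : k ≤ k * n := Nat.le_mul_of_pos_right k (by omega)
  set M : Fin k → Finset V := fun v => comN G φ (A v) \ B0 with hMdef
  have hM : ∀ v ∈ I, 8 * (k + 1) * n ≤ (M v).card := by
    intro v hv
    obtain ⟨h1, h2⟩ := hA v hv
    have h3 := card_comN G hNum hmin hSt (A v) h1 h2
    have h4 := Finset.le_card_sdiff B0 (comN G φ (A v))
    have h5 : (10 * k + 20) * n = 8 * (k + 1) * n + 2 * (k * n) + 12 * n := by ring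
    have h6 : (M v).card = (comN G φ (A v) \ B0).card := rfl
    omega
  obtain ⟨x, hxB, y, hy1, hy2⟩ := step G hJ hn I hIk M hM
    (fun i _ a _ => poor_le G hJ hNum hmin a) (B0 ∪ B1) (by
      have h1 := Finset.card_union_le B0 B1
      have h2 : (2 ^ k + 3 * k + 2) * n = 2 ^ k * n + 3 * (k * n) + 2 * n := by ring
      have h3 : (B0 ∪ B1).card + k * n ≤ (2 ^ k + 3 * k + 2) * n := by omega
      omega)
  rw [Finset.mem_union, not_or] at hxB
  obtain ⟨hxB0, hxB1⟩ := hxB
  -- vertices outside `B0`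
  have hout : ∀ z, z ∉ B0 → ∀ u ∈ Old, φ u ≠ z ∧ z ∉ poor G q Finset.univ (φ u) := by
    intro z hz u hu
    rw [hB0, Finset.mem_union, not_or] at hz
    refine ⟨fun h => hz.1 (Finset.mem_image.mpr ⟨u, hu, h⟩), fun h => hz.2 ?_⟩
    exact Finset.mem_biUnion.mpr ⟨u, hu, h⟩
  have hyM : ∀ v ∈ I, y v ∈ comN G φ (A v) ∧ y v ∉ B0 := by
    intro v hv
    have h := (hy1 v hv).1
    exact Finset.mem_sdiff.mp h
  set φ' : Fin k → V := fun v => if v ∈ I then y v else if v ∈ X then x else φ v with hφ'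
  have hφI : ∀ v ∈ I, φ' v = y v := fun v hv => by
    show (if v ∈ I then y v else if v ∈ X then x else φ v) = y v
    rw [if_pos hv]
  have hφX : ∀ v ∈ X, φ' v = x := fun v hv => by
    show (if v ∈ I then y v else if v ∈ X then x else φ v) = x
    rw [if_neg (fun h => (Finset.disjoint_left.mp hIX) h hv), if_pos hv]
  have hφO : ∀ v ∈ Old, φ' v = φ v := fun v hv => by
    show (if v ∈ I then y v else if v ∈ X then x else φ v) = φ v
    rw [if_neg (Finset.disjoint_left.mp hOI hv), if_neg (Finset.disjoint_left.mp hOX hv)]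
  have hXX : ∀ u ∈ X, ∀ v ∈ X, u = v := Finset.card_le_one.mp hX1
  -- distinct and rich
  have hsym : ∀ a b : V, (a ≠ b ∧ b ∉ poor G q Finset.univ a) →
      (b ≠ a ∧ a ∉ poor G q Finset.univ b) := by
    intro a b h
    exact ⟨h.1.symm, fun h2 => h.2 ((mem_poor_comm G).mp h2)⟩
  have hOX' : ∀ u ∈ Old, ∀ v ∈ X, φ' u ≠ φ' v ∧ φ' v ∉ poor G q Finset.univ (φ' u) := by
    intro u hu v hv
    rw [hφO u hu, hφX v hv]
    exact hout x hxB0 u hu
  have hOI' : ∀ u ∈ Old, ∀ v ∈ I, φ' u ≠ φ' v ∧ φ' v ∉ poor G q Finset.univ (φ' u) := by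
    intro u hu v hv
    rw [hφO u hu, hφI v hv]
    exact hout (y v) (hyM v hv).2 u hu
  have hXI' : ∀ u ∈ X, ∀ v ∈ I, φ' u ≠ φ' v ∧ φ' v ∉ poor G q Finset.univ (φ' u) := by
    intro u hu v hv
    rw [hφX u hu, hφI v hv]
    exact ⟨(hy1 v hv).2.1.ne, (hy1 v hv).2.2⟩
  have hall : ∀ u ∈ Old ∪ X ∪ I, ∀ v ∈ Old ∪ X ∪ I, u ≠ v →
      φ' u ≠ φ' v ∧ φ' v ∉ poor G q Finset.univ (φ' u) := by
    intro u hu v hv huv
    rw [Finset.mem_union, Finset.mem_union] at hu hv
    rcases hu with (hu | hu) | hu <;> rcases hv with (hv | hv) | hv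
    · rw [hφO u hu, hφO v hv]
      exact ⟨hSt.inj u hu v hv huv, hSt.rich u hu v hv huv⟩
    · exact hOX' u hu v hv
    · exact hOI' u hu v hv
    · exact hsym _ _ (hOX' v hv u hu)
    · exact absurd (hXX u hu v hv) huv
    · exact hXI' u hu v hv
    · exact hsym _ _ (hOI' v hv u hu)
    · exact hsym _ _ (hXI' v hv u hu)
    · rw [hφI u hu, hφI v hv]
      exact hy2 u hu v hv huv
  refine ⟨φ', ⟨fun u hu v hv huv => (hall u hu v hv huv).1,
    fun u hu v hv huv => (hall u hu v hv huv).2, ?_, ?_⟩⟩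
  · -- adjacency
    have hIO' : ∀ u ∈ Old, ∀ v ∈ I, H.Adj u v → G.Adj (φ' u) (φ' v) := by
      intro u hu v hv huv
      rw [hφO u hu, hφI v hv]
      exact (mem_comN G).mp (hyM v hv).1 u (hIO v hv u hu huv)
    have hXI2 : ∀ u ∈ X, ∀ v ∈ I, G.Adj (φ' u) (φ' v) := by
      intro u hu v hv
      rw [hφX u hu, hφI v hv]
      exact (hy1 v hv).2.1
    intro u hu v hv huv
    rw [Finset.mem_union, Finset.mem_union] at hu hv
    rcases hu with (hu | hu) | hu <;> rcases hv with (hv | hv) | hv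
    · rw [hφO u hu, hφO v hv]
      exact hSt.adj u hu v hv huv
    · exact absurd huv (hXO v hv u hu)
    · exact hIO' u hu v hv huv
    · exact absurd huv.symm (hXO u hu v hv)
    · exact absurd (hXX u hu v hv) huv.ne
    · exact hXI2 u hu v hv
    · exact (hIO' v hv u hu huv.symm).symm
    · exact (hXI2 v hv u hu).symm
    · exact absurd huv (hII v hv u hu)
  · -- common neighbourhoods
    intro A1 hA1 hA1F hA1r
    have hA1' : ∀ u ∈ A1, u ∈ Old ∨ u ∈ X := by
      intro u hu
      have h1 := hA1 hu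
      rw [Finset.mem_union, Finset.mem_union] at h1
      rcases h1 with h1 | h1
      · exact h1
      · exact absurd (hA1F hu) (Finset.disjoint_left.mp hIF h1)
    by_cases hx : ∃ x0 ∈ X, x0 ∈ A1
    · obtain ⟨x0, hx0, hx0A⟩ := hx
      have hA0 : A1.erase x0 ⊆ Old := by
        intro u hu
        rw [Finset.mem_erase] at hu
        rcases hA1' u hu.2 with h | h
        · exact h
        · exact absurd (hXX u h x0 hx0) hu.1
      have hcard : (A1.erase x0).card + 1 = A1.card := Finset.card_erase_add_one hx0A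
      have hA0F : A1.erase x0 ⊆ F := (Finset.erase_subset _ _).trans hA1F
      have hmem : A1.erase x0 ∈ Fam := by
        rw [hFam, Finset.mem_filter, Finset.mem_powerset]
        exact ⟨Finset.subset_inter hA0 hA0F, by omega⟩
      have hnb : ¬ (2 * n * (nb G (comN G φ (A1.erase x0)) x).card
          < (comN G φ (A1.erase x0)).card) := by
        intro h
        apply hxB1
        rw [hB1, Finset.mem_biUnion]
        exact ⟨_, hmem, Finset.mem_filter.mpr ⟨Finset.mem_univ _, h⟩⟩
      have hcom := hSt.com (A1.erase x0) hA0 hA0F (by omega)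
      have heq : nb G (comN G φ (A1.erase x0)) x ⊆ comN G φ' A1 := by
        intro z hz
        rw [mem_nb] at hz
        rw [mem_comN]
        intro u hu
        by_cases hux : u = x0
        · rw [hux, hφX x0 hx0]
          exact hz.2
        · have h1 : u ∈ A1.erase x0 := Finset.mem_erase.mpr ⟨hux, hu⟩
          rw [hφO u (hA0 h1)]
          exact (mem_comN G).mp hz.1 u h1
      calc Fintype.card V ≤ (2 * n) ^ (A1.erase x0).card * (comN G φ (A1.erase x0)).card := hcom
        _ ≤ (2 * n) ^ (A1.erase x0).card * (2 * n * (nb G (comN G φ (A1.erase x0)) x).card) :=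
          Nat.mul_le_mul_left _ (not_lt.mp hnb)
        _ = (2 * n) ^ A1.card * (nb G (comN G φ (A1.erase x0)) x).card := by
          rw [← hcard, pow_succ]
          ring
        _ ≤ (2 * n) ^ A1.card * (comN G φ' A1).card :=
          Nat.mul_le_mul_left _ (Finset.card_le_card heq)
    · push Not at hx
      have hA0 : A1 ⊆ Old := by
        intro u hu
        rcases hA1' u hu with h | h
        · exact h
        · exact absurd hu (hx u h)
      have heq : comN G φ A1 ⊆ comN G φ' A1 := by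
        intro z hz
        rw [mem_comN] at hz ⊢
        intro u hu
        rw [hφO u (hA0 hu)]
        exact hz u hu
      exact (hSt.com A1 hA0 hA1F hA1r).trans
        (Nat.mul_le_mul_left _ (Finset.card_le_card heq))

end Pool.Agent.H65.TL
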