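import Pool.Agent.H65.TL.Defs

/-!
# The top vertices

The vertices of `T` are added greedily in the order `p`: `z` with `back z = {u, u'} ⊆ C` has at
least `q ≥ k` candidates (`rich`, `mem_poor`), `z` with `back z = {u}` has `D ≥ k` candidates
(`hmin`), `z` with `back z = ∅` has `card V ≥ k` candidates, and fewer than `k` vertices are used.
If `z ∈ T` and `z ∈ back w` then `w ∈ T`.
-/

set_option autoImplicit false
set_option linter.unusedSectionVars false

namespace Pool.Agent.H65.TL

open Finset Pool.Agent.H38.Ram

variable {V : Type*} [DecidableEq V] [Fintype V] (G : SimpleGraph V) [DecidableRel G.Adj]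

/-- one more top vertex -/
private lemma Fin_step {k : ℕ} {H : SimpleGraph (Fin k)} [DecidableRel H.Adj] {n q D r : ℕ}
    (hNum : Num n q D r k (Fintype.card V))
    (hmin : ∀ v : V, D ≤ (nb G Finset.univ v).card)
    (p : Fin k → ℕ) (T : Finset (Fin k)) (hH : Ordered H r p T)
    {F : Finset (Fin k)} {φ : Fin k → V}
    (hSt : St G H n q r F (Finset.univ.filter (fun v => v ∉ T)) φ)
    (m : ℕ) (f : Fin k → V) (hf0 : ∀ u, u ∉ T → f u = φ u)
    (hinj : ∀ u v, (u ∉ T ∨ p u < m) → (v ∉ T ∨ p v < m) → u ≠ v → f u ≠ f v)
    (hadj : ∀ u v, (u ∉ T ∨ p u < m) → (v ∉ T ∨ p v < m) → H.Adj u v → G.Adj (f u) (f v))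
    (z : Fin k) (hz : z ∈ T) (hzm : p z = m) :
    ∃ w : V, (∀ u, (u ∉ T ∨ p u < m) → f u ≠ w) ∧
      (∀ u, (u ∉ T ∨ p u < m) → H.Adj u z → G.Adj (f u) w) := by
  classical
  obtain ⟨hn, hr, hkq, hD1, hD2, hV2, hV3⟩ := id hNum
  have hqD : q ≤ D := by
    have h1 : 1 * q ≤ n * q := Nat.mul_le_mul_right q hn
    omega
  have hVpos : 0 < Fintype.card V := by omega
  have hne : Nonempty V := Fintype.card_pos_iff.1 hVpos
  -- the neighbours of z which are already placed are earlier
  have hback : ∀ u, (u ∉ T ∨ p u < m) → H.Adj u z → u ∈ back H p z := by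
    intro u hu hadj'
    rw [mem_back]
    refine ⟨hadj', ?_⟩
    by_contra hcon
    have huT : u ∉ T := by
      rcases hu with h | h
      · exact h
      · exact absurd (hzm ▸ h) hcon
    have hpne : p u ≠ p z := fun h => hadj'.ne (hH.1 h)
    have hlt : p z < p u := by omega
    exact (((hH.2 u).1 huT).1 z (mem_back.2 ⟨hadj'.symm, hlt⟩)) hz
  -- the candidates
  have hcand : k ≤ (Finset.univ.filter (fun w : V => ∀ u ∈ back H p z, G.Adj (f u) w)).card := by
    rcases (hH.2 z).2 hz with h1 | ⟨h2, hT2⟩
    · rcases Nat.eq_zero_or_pos (back H p z).card with h0 | h0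
      · have he : back H p z = ∅ := Finset.card_eq_zero.1 h0
        have hfil : (Finset.univ.filter (fun w : V => ∀ u ∈ back H p z, G.Adj (f u) w)) =
            Finset.univ := by
          rw [he]
          simp
        rw [hfil, Finset.card_univ]
        have h3 := hmin hne.some
        have h4 : (nb G Finset.univ hne.some).card ≤ Fintype.card V := Finset.card_le_univ _
        omega
      · have h1' : (back H p z).card = 1 := by omega
        obtain ⟨u, hu⟩ := Finset.card_eq_one.1 h1'
        have hfil : nb G Finset.univ (f u) ⊆
            (Finset.univ.filter (fun w : V => ∀ u ∈ back H p z, G.Adj (f u) w)) := by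
          intro w hw
          rw [Finset.mem_filter]
          refine ⟨Finset.mem_univ _, ?_⟩
          intro u' hu'
          rw [hu, Finset.mem_singleton] at hu'
          subst hu'
          exact (mem_nb G |>.1 hw).2
        have h3 := Finset.card_le_card hfil
        have h4 := hmin (f u)
        omega
    · rcases Nat.lt_or_ge (back H p z).card 2 with hlt | hge
      · rcases Nat.eq_zero_or_pos (back H p z).card with h0 | h0
        · have he : back H p z = ∅ := Finset.card_eq_zero.1 h0
          have hfil : (Finset.univ.filter (fun w : V => ∀ u ∈ back H p z, G.Adj (f u) w)) =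
              Finset.univ := by
            rw [he]
            simp
          rw [hfil, Finset.card_univ]
          have h3 := hmin hne.some
          have h4 : (nb G Finset.univ hne.some).card ≤ Fintype.card V := Finset.card_le_univ _
          omega
        · have h1' : (back H p z).card = 1 := by omega
          obtain ⟨u, hu⟩ := Finset.card_eq_one.1 h1'
          have hfil : nb G Finset.univ (f u) ⊆
              (Finset.univ.filter (fun w : V => ∀ u ∈ back H p z, G.Adj (f u) w)) := by
            intro w hw
            rw [Finset.mem_filter]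
            refine ⟨Finset.mem_univ _, ?_⟩
            intro u' hu'
            rw [hu, Finset.mem_singleton] at hu'
            subst hu'
            exact (mem_nb G |>.1 hw).2
          have h3 := Finset.card_le_card hfil
          have h4 := hmin (f u)
          omega
      · have h2' : (back H p z).card = 2 := by omega
        obtain ⟨u, u', huu, hu⟩ := Finset.card_eq_two.1 h2'
        have huT : u ∉ T := hT2 u (by rw [hu]; simp)
        have huT' : u' ∉ T := hT2 u' (by rw [hu]; simp)
        have hfil : cn G Finset.univ (φ u) (φ u') ⊆
            (Finset.univ.filter (fun w : V => ∀ u ∈ back H p z, G.Adj (f u) w)) := by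
          intro w hw
          rw [mem_cn] at hw
          rw [Finset.mem_filter]
          refine ⟨Finset.mem_univ _, ?_⟩
          intro v hv
          rw [hu, Finset.mem_insert, Finset.mem_singleton] at hv
          rcases hv with rfl | rfl
          · rw [hf0 _ huT]
            exact hw.2.1
          · rw [hf0 _ huT']
            exact hw.2.2
        have h3 := Finset.card_le_card hfil
        have h4 := hSt.rich u (by simp [huT]) u' (by simp [huT']) huu
        rw [mem_poor, not_lt] at h4
        omega
  -- fewer than k vertices are used
  set U : Finset V := (Finset.univ.filter (fun u : Fin k => u ∉ T ∨ p u < m)).image f with hU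
  have hUc : U.card < k := by
    have h1 : U.card ≤ (Finset.univ.filter (fun u : Fin k => u ∉ T ∨ p u < m)).card :=
      Finset.card_image_le
    have h2 : (Finset.univ.filter (fun u : Fin k => u ∉ T ∨ p u < m)).card <
        (Finset.univ : Finset (Fin k)).card := by
      refine Finset.card_lt_card ?_
      rw [Finset.ssubset_univ_iff]
      intro h
      have : z ∈ (Finset.univ.filter (fun u : Fin k => u ∉ T ∨ p u < m)) := by
        rw [h]
        exact Finset.mem_univ _
      rw [Finset.mem_filter] at this
      rcases this.2 with h3 | h3
      · exact h3 hz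
      · omega
    rw [Finset.card_univ, Fintype.card_fin] at h2
    omega
  obtain ⟨w, hw1, hw2⟩ := Finset.exists_mem_notMem_of_card_lt_card (lt_of_lt_of_le hUc hcand)
  rw [Finset.mem_filter] at hw1
  refine ⟨w, ?_, ?_⟩
  · intro u hu he
    exact hw2 (Finset.mem_image.2 ⟨u, by rw [Finset.mem_filter]; exact ⟨Finset.mem_univ _, hu⟩, he⟩)
  · intro u hu ha
    exact hw1.2 u (hback u hu ha)

/-- all top vertices before `m` -/
private lemma Fin_all {k : ℕ} {H : SimpleGraph (Fin k)} [DecidableRel H.Adj] {n q D r : ℕ}
    (hNum : Num n q D r k (Fintype.card V))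
    (hmin : ∀ v : V, D ≤ (nb G Finset.univ v).card)
    (p : Fin k → ℕ) (T : Finset (Fin k)) (hH : Ordered H r p T)
    {F : Finset (Fin k)} {φ : Fin k → V}
    (hSt : St G H n q r F (Finset.univ.filter (fun v => v ∉ T)) φ)
    (m : ℕ) : ∃ f : Fin k → V, (∀ u, u ∉ T → f u = φ u) ∧
      (∀ u v, (u ∉ T ∨ p u < m) → (v ∉ T ∨ p v < m) → u ≠ v → f u ≠ f v) ∧
      (∀ u v, (u ∉ T ∨ p u < m) → (v ∉ T ∨ p v < m) → H.Adj u v → G.Adj (f u) (f v)) := by
  classical
  induction m with
  | zero =>
    refine ⟨φ, fun u _ => rfl, ?_, ?_⟩
    · intro u v hu hv huv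
      have hu' : u ∉ T := by
        rcases hu with h | h
        · exact h
        · omega
      have hv' : v ∉ T := by
        rcases hv with h | h
        · exact h
        · omega
      exact hSt.inj u (by simp [hu']) v (by simp [hv']) huv
    · intro u v hu hv huv
      have hu' : u ∉ T := by
        rcases hu with h | h
        · exact h
        · omega
      have hv' : v ∉ T := by
        rcases hv with h | h
        · exact h
        · omega
      exact hSt.adj u (by simp [hu']) v (by simp [hv']) huv
  | succ m ih =>
    obtain ⟨f, hf0, hinj, hadj⟩ := ih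
    by_cases hex : ∃ z ∈ T, p z = m
    · obtain ⟨z, hz, hzm⟩ := hex
      obtain ⟨w, hw1, hw2⟩ := Fin_step G hNum hmin p T hH hSt m f hf0 hinj hadj z hz hzm
      have hcase : ∀ u, (u ∉ T ∨ p u < m + 1) → u ≠ z → (u ∉ T ∨ p u < m) := by
        intro u hu huz
        rcases hu with h | h
        · exact Or.inl h
        · right
          have : p u ≠ p z := fun h' => huz (hH.1 h')
          omega
      refine ⟨Function.update f z w, ?_, ?_, ?_⟩
      · intro u hu
        have huz : u ≠ z := fun h => hu (h ▸ hz)
        rw [Function.update_of_ne huz]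
        exact hf0 u hu
      · intro u v hu hv huv
        by_cases h1 : u = z
        · subst h1
          have h2 : v ≠ u := fun h => huv h.symm
          rw [Function.update_self, Function.update_of_ne h2]
          exact (hw1 v (hcase v hv h2)).symm
        · by_cases h2 : v = z
          · subst h2
            rw [Function.update_self, Function.update_of_ne h1]
            exact hw1 u (hcase u hu h1)
          · rw [Function.update_of_ne h1, Function.update_of_ne h2]
            exact hinj u v (hcase u hu h1) (hcase v hv h2) huv
      · intro u v hu hv huv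
        by_cases h1 : u = z
        · subst h1
          have h2 : v ≠ u := fun h => huv.ne h.symm
          rw [Function.update_self, Function.update_of_ne h2]
          exact (hw2 v (hcase v hv h2) huv.symm).symm
        · by_cases h2 : v = z
          · subst h2
            rw [Function.update_self, Function.update_of_ne h1]
            exact hw2 u (hcase u hu h1) huv
          · rw [Function.update_of_ne h1, Function.update_of_ne h2]
            exact hadj u v (hcase u hu h1) (hcase v hv h2) huv
    · have hcase : ∀ u, (u ∉ T ∨ p u < m + 1) → (u ∉ T ∨ p u < m) := by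
        intro u hu
        rcases hu with h | h
        · exact Or.inl h
        · by_cases huT : u ∈ T
          · right
            have : p u ≠ m := fun h' => hex ⟨u, huT, h'⟩
            omega
          · exact Or.inl huT
      exact ⟨f, hf0, fun u v hu hv => hinj u v (hcase u hu) (hcase v hv),
        fun u v hu hv => hadj u v (hcase u hu) (hcase v hv)⟩

theorem finish {k : ℕ} {H : SimpleGraph (Fin k)} [DecidableRel H.Adj] {n q D r : ℕ}
    (hNum : Num n q D r k (Fintype.card V))
    (hmin : ∀ v : V, D ≤ (nb G Finset.univ v).card)
    (p : Fin k → ℕ) (T : Finset (Fin k)) (hH : Ordered H r p T)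
    {F : Finset (Fin k)} {φ : Fin k → V}
    (hSt : St G H n q r F (Finset.univ.filter (fun v => v ∉ T)) φ) :
    H.IsContained G := by
  classical
  obtain ⟨f, -, hinj, hadj⟩ := Fin_all G hNum hmin p T hH hSt
    ((Finset.univ.sup p) + 1)
  have hall : ∀ u : Fin k, u ∉ T ∨ p u < (Finset.univ.sup p) + 1 := fun u =>
    Or.inr (Nat.lt_succ_of_le (Finset.le_sup (Finset.mem_univ u)))
  have hinj' : Function.Injective f := by
    intro u v huv
    by_contra hne
    exact hinj u v (hall u) (hall v) hne huv
  exact ⟨⟨⟨f, fun {u v} h => hadj u v (hall u) (hall v) h⟩, hinj'⟩⟩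

end Pool.Agent.H65.TL
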