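import Pool.Agent.H65.TL.Defs

/-!
# Three layers

`c : Fin k → Fin 3` the layer; order by `p v = k * c v + v`; `T` = layer 2.
-/

set_option autoImplicit false
set_option linter.unusedSectionVars false

namespace Pool.Agent.H65.TL

open Finset Pool.Agent.H38.Ram

variable {V : Type*} [DecidableEq V] [Fintype V] (G : SimpleGraph V) [DecidableRel G.Adj]

theorem layered {k : ℕ} {H : SimpleGraph (Fin k)} [DecidableRel H.Adj] {r : ℕ} (hr : 2 ≤ r)
    (c : Fin k → Fin 3) (hc : ∀ u v, H.Adj u v → c u ≠ c v)
    (h1 : ∀ v, c v = 1 → (Finset.univ.filter (fun u => H.Adj u v ∧ c u < c v)).card ≤ r)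
    (h2 : ∀ v, c v = 2 → (Finset.univ.filter (fun u => H.Adj u v ∧ c u < c v)).card ≤ 2) :
    ∃ (p : Fin k → ℕ) (T : Finset (Fin k)), Ordered H r p T := by
  have hlt : ∀ u v : Fin k, H.Adj u v → (k * (c u : ℕ) + u < k * (c v : ℕ) + v ↔ c u < c v) := by
    intro u v huv
    have hne := hc u v huv
    have hu := u.2
    have hv := v.2
    constructor
    · intro h
      by_contra hcon
      have h1 : (c v : ℕ) + 1 ≤ (c u : ℕ) := by
        have h2 : c v < c u := lt_of_le_of_ne (not_lt.1 hcon) (Ne.symm hne)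
        exact h2
      have h3 : k * ((c v : ℕ) + 1) ≤ k * (c u : ℕ) := Nat.mul_le_mul_left k h1
      rw [mul_add, mul_one] at h3
      omega
    · intro h
      have h1 : (c u : ℕ) + 1 ≤ (c v : ℕ) := h
      have h3 : k * ((c u : ℕ) + 1) ≤ k * (c v : ℕ) := Nat.mul_le_mul_left k h1
      rw [mul_add, mul_one] at h3
      omega
  have hback : ∀ v, back H (fun v : Fin k => k * (c v : ℕ) + v) v =
      Finset.univ.filter (fun u => H.Adj u v ∧ c u < c v) := by
    intro v
    ext u
    rw [mem_back, Finset.mem_filter]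
    constructor
    · rintro ⟨h1, h2⟩
      exact ⟨Finset.mem_univ _, h1, (hlt u v h1).1 h2⟩
    · rintro ⟨_, h1, h2⟩
      exact ⟨h1, (hlt u v h1).2 h2⟩
  have hmem : ∀ {u v}, u ∈ back H (fun v : Fin k => k * (c v : ℕ) + v) v → c u < c v := by
    intro u v h
    rw [hback, Finset.mem_filter] at h
    exact h.2.2
  refine ⟨fun v => k * (c v : ℕ) + v, Finset.univ.filter (fun v => c v = 2), ?_, fun v => ⟨?_, ?_⟩⟩
  · intro u v huv
    have hu := u.2
    have hv := v.2
    have h : k * (c u : ℕ) + u = k * (c v : ℕ) + v := huv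
    have h1 : (k * (c u : ℕ) + u) % k = u := by
      rw [Nat.mul_add_mod, Nat.mod_eq_of_lt hu]
    have h2 : (k * (c v : ℕ) + v) % k = v := by
      rw [Nat.mul_add_mod, Nat.mod_eq_of_lt hv]
    rw [h, h2] at h1
    exact Fin.ext h1.symm
  · intro hv
    have hv2 : c v ≠ 2 := fun h => hv (Finset.mem_filter.2 ⟨Finset.mem_univ _, h⟩)
    have hv3 : (c v : ℕ) < 2 := by
      have h4 : (c v : ℕ) ≠ 2 := fun h => hv2 (Fin.ext h)
      have := (c v).2
      omega
    refine ⟨fun u hu hT => ?_, ?_⟩
    · have h5 := (Finset.mem_filter.1 hT).2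
      have h6 : (c u : ℕ) < (c v : ℕ) := hmem hu
      rw [h5] at h6
      have h7 : ((2 : Fin 3) : ℕ) = 2 := rfl
      omega
    · unfold CoreCond
      by_cases h0 : (c v : ℕ) = 0
      · left
        have h8 : back H (fun v : Fin k => k * (c v : ℕ) + v) v = ∅ := by
          rw [Finset.eq_empty_iff_forall_notMem]
          intro u hu
          have h6 : (c u : ℕ) < (c v : ℕ) := hmem hu
          omega
        rw [h8]
        simp
      · right; right
        have h9 : c v = 1 := Fin.ext (by
          have : ((1 : Fin 3) : ℕ) = 1 := rfl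
          omega)
        refine ⟨?_, fun u hu => ?_⟩
        · rw [hback]
          exact h1 v h9
        · rw [Finset.eq_empty_iff_forall_notMem]
          intro w hw
          have h6 : (c u : ℕ) < (c v : ℕ) := hmem hu
          have h7 : (c w : ℕ) < (c u : ℕ) := hmem hw
          omega
  · intro hv
    have h5 := (Finset.mem_filter.1 hv).2
    right
    refine ⟨?_, fun u hu hT => ?_⟩
    · rw [hback]
      exact h2 v h5
    · have h6 : c u < c v := hmem hu
      rw [h5, (Finset.mem_filter.1 hT).2] at h6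
      exact lt_irrefl _ h6

end Pool.Agent.H65.TL
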