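import Pool.Agent.H65.TL.Apex
import Pool.Agent.H65.TL.Layer

/-!
# The theorem
-/

set_option autoImplicit false
set_option linter.unusedSectionVars false

namespace Pool.Agent.H65.TL

open Finset Pool.Agent.H38.Ram

/-- `R(H, K_{n,n}) ≤ C n ^ e` for all `n`, in the form used in the frozen statements. -/
def Bound {k : ℕ} (H : SimpleGraph (Fin k)) (e : ℕ) : Prop :=
  ∃ C : ℕ, ∀ n N : ℕ, C * n ^ e ≤ N → ∀ G : SimpleGraph (Fin N),
    H.IsContained G ∨ (completeBipartiteGraph (Fin n) (Fin n)).IsContained Gᶜ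

theorem bound_of_ordered {k : ℕ} {H : SimpleGraph (Fin k)} [DecidableRel H.Adj] {s t : ℕ}
    (ht : 2 ≤ t) (Z : Finset (Fin k)) (hZ : Z.card ≤ s) (p : Fin k → ℕ) (T : Finset (Fin k))
    (hH : Ordered (cut H Z) t p T) : Bound H (s + t) := by
  classical
  refine ⟨2 ^ s * (10000 * 2 ^ (k + t) * (k + 1) ^ 5), ?_⟩
  intro n N hN G
  rcases Nat.eq_zero_or_pos n with hn0 | hn
  · right
    subst hn0
    exact SimpleGraph.IsContained.of_isEmpty
  by_cases hcont : (completeBipartiteGraph (Fin n) (Fin n)).IsContained Gᶜ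
  · exact Or.inr hcont
  left
  have hJ : Joined G n := joined_of_not_contained G n hcont
  exact apex G ht Z hZ p T hH hJ hn (by rw [Fintype.card_fin]; exact hN)

end Pool.Agent.H65.TL
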