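import Pool.Agent.H65.TL.Defs

/-!
# The numerical conditions

All terms are at most `const * n ^ r`: with `n ^ r = n ^ 2 * n ^ (r-2)`, `n ≤ n ^ r`, `n ^ 2 ≤ n ^ r`
(`n ≥ 1`, `r ≥ 2`); `2 ^ k + 3 k + 2 + 32 k (k+1)^2 + 64 k^2 (k+1)^3 + 1 < 10000 * 2 ^ (k+r) * (k+1)^5`.
-/

set_option autoImplicit false

namespace Pool.Agent.H65.TL

private theorem NumOk_poly (k a b : ℕ) (ha : 1 ≤ a) (hb : 1 ≤ b) :
    a + 3 * k + 2 + 32 * k * (k + 1) ^ 2 + 64 * k ^ 2 * (k + 1) ^ 3 + 1 <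
      10000 * (a * b) * (k + 1) ^ 5 := by
  have h0 : 1 ≤ (k + 1) ^ 5 := Nat.one_le_pow _ _ (by omega)
  have h1 : k ≤ (k + 1) ^ 5 :=
    le_trans (by omega : k ≤ k + 1) (Nat.le_self_pow (by norm_num) (k + 1))
  have h2 : k * (k + 1) ^ 2 ≤ (k + 1) ^ 5 := by
    calc k * (k + 1) ^ 2 ≤ (k + 1) ^ 3 * (k + 1) ^ 2 :=
          Nat.mul_le_mul_right _ (le_trans (by omega : k ≤ k + 1) (Nat.le_self_pow (by norm_num) _))
      _ = (k + 1) ^ 5 := by ring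
  have h3 : k ^ 2 * (k + 1) ^ 3 ≤ (k + 1) ^ 5 := by
    calc k ^ 2 * (k + 1) ^ 3 ≤ (k + 1) ^ 2 * (k + 1) ^ 3 :=
          Nat.mul_le_mul_right _ (Nat.pow_le_pow_left (by omega) 2)
      _ = (k + 1) ^ 5 := by ring
  have hab : 1 ≤ a * b := Nat.mul_pos ha hb
  have h4 : (k + 1) ^ 5 ≤ a * b * (k + 1) ^ 5 := Nat.le_mul_of_pos_left _ hab
  have h5 : a ≤ a * b * (k + 1) ^ 5 := by
    calc a = a * 1 * 1 := by ring
      _ ≤ a * b * (k + 1) ^ 5 := Nat.mul_le_mul (Nat.mul_le_mul_left _ hb) h0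
  have h6 : 10000 * (a * b) * (k + 1) ^ 5 = 10000 * (a * b * (k + 1) ^ 5) := by ring
  have h7 : 32 * k * (k + 1) ^ 2 = 32 * (k * (k + 1) ^ 2) := by ring
  have h8 : 64 * k ^ 2 * (k + 1) ^ 3 = 64 * (k ^ 2 * (k + 1) ^ 3) := by ring
  rw [h6, h7, h8]
  omega

theorem num_ok {n r k N : ℕ} (hn : 1 ≤ n) (hr : 2 ≤ r)
    (hN : 10000 * 2 ^ (k + r) * (k + 1) ^ 5 * n ^ r ≤ N + n) :
    Num n ((k + 1) * n ^ (r - 2)) ((10 * k + 20) * n + n * ((k + 1) * n ^ (r - 2)) + 2 * n)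
      r k N := by
  obtain ⟨s, rfl⟩ : ∃ s, r = s + 2 := ⟨r - 2, by omega⟩
  have hs : s + 2 - 2 = s := by omega
  have hm : 1 ≤ n ^ s := Nat.one_le_pow _ _ hn
  have hP : n ^ (s + 2) = n ^ 2 * n ^ s := by ring
  have hn2 : n ^ 2 ≤ n ^ (s + 2) := Nat.pow_le_pow_right hn (by omega)
  have hn1 : n ≤ n ^ (s + 2) := Nat.le_self_pow (by omega) n
  have hpoly := NumOk_poly k (2 ^ k) (2 ^ (s + 2)) Nat.one_le_two_pow Nat.one_le_two_pow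
  have hab : 2 ^ (k + (s + 2)) = 2 ^ k * 2 ^ (s + 2) := pow_add 2 k (s + 2)
  rw [hab] at hN
  have hpos : 1 ≤ n ^ (s + 2) := Nat.one_le_pow _ _ hn
  rw [hs]
  refine ⟨hn, hr, ?_, by omega, by omega, ?_, ?_⟩
  · calc k ≤ (k + 1) * 1 := by omega
      _ ≤ (k + 1) * n ^ s := Nat.mul_le_mul_left _ hm
  · have e1 : (2 * n) ^ (s + 2 - 1) * ((10 * k + 20) * n) =
        (2 ^ (s + 1) * (10 * k + 20)) * n ^ (s + 2) := by
      have : s + 2 - 1 = s + 1 := by omega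
      rw [this, mul_pow]
      ring
    have e2 : 2 ^ (s + 1) * (10 * k + 20) + 1 ≤ 10000 * (2 ^ k * 2 ^ (s + 2)) * (k + 1) ^ 5 := by
      have k1 : 1 ≤ 2 ^ (s + 1) := Nat.one_le_two_pow
      have k2 : 1 ≤ 2 ^ k := Nat.one_le_two_pow
      have k3 : k + 1 ≤ (k + 1) ^ 5 := Nat.le_self_pow (by norm_num) _
      have k4 : 2 ^ (s + 1) * (k + 1) ≤ 2 ^ (s + 1) * (k + 1) ^ 5 := Nat.mul_le_mul_left _ k3
      have k5 : 2 ^ (s + 1) * (k + 1) ^ 5 ≤ 2 ^ k * (2 ^ (s + 1) * (k + 1) ^ 5) :=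
        Nat.le_mul_of_pos_left _ k2
      have k6 : 10000 * (2 ^ k * 2 ^ (s + 2)) * (k + 1) ^ 5 =
          20000 * (2 ^ k * (2 ^ (s + 1) * (k + 1) ^ 5)) := by ring
      have k7 : 2 ^ (s + 1) * (10 * k + 20) ≤ 20 * (2 ^ (s + 1) * (k + 1)) := by
        calc 2 ^ (s + 1) * (10 * k + 20) ≤ 2 ^ (s + 1) * (20 * (k + 1)) :=
              Nat.mul_le_mul_left _ (by omega)
          _ = 20 * (2 ^ (s + 1) * (k + 1)) := by ring
      have k8 : 1 ≤ 2 ^ (s + 1) * (k + 1) := Nat.mul_pos k1 (by omega)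
      rw [k6]
      omega
    have e3 := Nat.mul_le_mul_right (n ^ (s + 2)) e2
    rw [add_mul, one_mul] at e3
    rw [e1]
    omega
  · have e1 : (2 ^ k + 3 * k + 2) * n ≤ (2 ^ k + 3 * k + 2) * n ^ (s + 2) := Nat.mul_le_mul_left _ hn1
    have e2 : k * (2 * (16 * (k + 1) ^ 2) * n ^ 2) ≤ (32 * k * (k + 1) ^ 2) * n ^ (s + 2) := by
      calc k * (2 * (16 * (k + 1) ^ 2) * n ^ 2) = (32 * k * (k + 1) ^ 2) * n ^ 2 := by ring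
        _ ≤ _ := Nat.mul_le_mul_left _ hn2
    have e3 : k * k * (4 * (16 * (k + 1) ^ 2) * n ^ 2 * ((k + 1) * n ^ s)) =
        (64 * k ^ 2 * (k + 1) ^ 3) * n ^ (s + 2) := by ring
    have e4 := Nat.mul_le_mul_right (n ^ (s + 2)) (Nat.succ_le_of_lt hpoly)
    rw [Nat.succ_eq_add_one] at e4
    have e5 : (2 ^ k + 3 * k + 2 + 32 * k * (k + 1) ^ 2 + 64 * k ^ 2 * (k + 1) ^ 3 + 1 + 1) *
        n ^ (s + 2) = (2 ^ k + 3 * k + 2) * n ^ (s + 2) + (32 * k * (k + 1) ^ 2) * n ^ (s + 2) +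
          (64 * k ^ 2 * (k + 1) ^ 3) * n ^ (s + 2) + n ^ (s + 2) + n ^ (s + 2) := by ring
    rw [e5] at e4
    rw [e3]
    omega

end Pool.Agent.H65.TL
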