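import Pool.Agent.H65.TL.Defs

/-!
# Poor pairs are seen by few vertices

Proof: the sum over ALL `x` of the number of poor pairs `(a, b)` with `a ∈ N(x) ∩ M`,
`b ∈ N(x) ∩ M'` is the sum over poor pairs `(a, b) ∈ M × M'` of the number of common neighbours,
hence at most `|M| n q`.  Every `x` of the set `X` below has at least `s s' / L ≥ |M||M'|/(4 n² L)`
such pairs.
-/

set_option autoImplicit false
set_option linter.unusedSectionVars false

namespace Pool.Agent.H65.TL

open Finset Pool.Agent.H38.Ram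

variable {V : Type*} [DecidableEq V] [Fintype V] (G : SimpleGraph V) [DecidableRel G.Adj]

/-- The poor pairs seen by `x`. -/
def pp (q : ℕ) (M M' : Finset V) (x : V) : Finset (V × V) :=
  ((nb G M x) ×ˢ (nb G M' x)).filter (fun p => p.2 ∈ poor G q Finset.univ p.1)

theorem sum_pp (n q : ℕ) (M M' : Finset V)
    (hM : ∀ a ∈ M, (poor G q Finset.univ a).card ≤ n) :
    ∑ x : V, (pp G q M M' x).card ≤ M.card * n * q := by
  set P : Finset (V × V) := (M ×ˢ M').filter (fun p => p.2 ∈ poor G q Finset.univ p.1) with hP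
  have e1 : ∀ x : V, pp G q M M' x = P.filter (fun p => G.Adj x p.1 ∧ G.Adj x p.2) := by
    intro x
    ext p
    simp only [pp, nb, hP, Finset.mem_filter, Finset.mem_product]
    tauto
  have e2 : ∑ x : V, (pp G q M M' x).card =
      ∑ p ∈ P, (Finset.univ.filter (fun x : V => G.Adj x p.1 ∧ G.Adj x p.2)).card := by
    rw [Finset.sum_congr rfl fun x _ => congrArg Finset.card (e1 x)]
    simp only [Finset.card_filter]
    exact Finset.sum_comm
  have e3 : ∀ p ∈ P, (Finset.univ.filter (fun x : V => G.Adj x p.1 ∧ G.Adj x p.2)).card ≤ q := by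
    intro p hp
    have h1 : p.2 ∈ poor G q Finset.univ p.1 := (Finset.mem_filter.1 hp).2
    rw [mem_poor] at h1
    refine le_trans (Finset.card_le_card fun x hx => ?_) h1.le
    rw [mem_cn]
    have h2 := (Finset.mem_filter.1 hx).2
    exact ⟨Finset.mem_univ _, h2.1.symm, h2.2.symm⟩
  have e4 : P.card ≤ M.card * n := by
    have h1 : P ⊆ M.biUnion fun a => (poor G q Finset.univ a).image fun b => (a, b) := by
      intro p hp
      have h2 := Finset.mem_filter.1 hp
      rw [Finset.mem_biUnion]
      exact ⟨p.1, (Finset.mem_product.1 h2.1).1, Finset.mem_image.2 ⟨p.2, h2.2, rfl⟩⟩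
    refine (Finset.card_le_card h1).trans (Finset.card_biUnion_le.trans ?_)
    refine (Finset.sum_le_card_nsmul _ _ n fun a ha => ?_).trans (by rw [smul_eq_mul])
    exact Finset.card_image_le.trans (hM a ha)
  rw [e2]
  refine (Finset.sum_le_card_nsmul _ _ q e3).trans ?_
  rw [smul_eq_mul]
  exact Nat.mul_le_mul_right q e4

theorem bad_pair_card (L n q : ℕ) (M M' : Finset V) (hM0 : 0 < M.card)
    (hM : ∀ a ∈ M, (poor G q Finset.univ a).card ≤ n) :
    (Finset.univ.filter (fun x => M.card ≤ 2 * n * (nb G M x).card ∧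
      M'.card ≤ 2 * n * (nb G M' x).card ∧
      (nb G M x).card * (nb G M' x).card ≤ L * (pp G q M M' x).card)).card * M'.card
      ≤ 4 * L * n ^ 3 * q := by
  set X : Finset V := Finset.univ.filter (fun x => M.card ≤ 2 * n * (nb G M x).card ∧
      M'.card ≤ 2 * n * (nb G M' x).card ∧
      (nb G M x).card * (nb G M' x).card ≤ L * (pp G q M M' x).card) with hX
  have h1 : ∀ x ∈ X, M.card * M'.card ≤ 4 * n ^ 2 * L * (pp G q M M' x).card := by
    intro x hx
    obtain ⟨-, a1, a2, a3⟩ := Finset.mem_filter.1 hx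
    calc M.card * M'.card ≤ (2 * n * (nb G M x).card) * (2 * n * (nb G M' x).card) :=
          Nat.mul_le_mul a1 a2
      _ = 4 * n ^ 2 * ((nb G M x).card * (nb G M' x).card) := by ring
      _ ≤ 4 * n ^ 2 * (L * (pp G q M M' x).card) := Nat.mul_le_mul_left _ a3
      _ = _ := by ring
  have h2 : X.card * (M.card * M'.card) ≤ 4 * n ^ 2 * L * (M.card * n * q) := by
    calc X.card * (M.card * M'.card) = X.card • (M.card * M'.card) := by rw [smul_eq_mul]
      _ ≤ ∑ x ∈ X, 4 * n ^ 2 * L * (pp G q M M' x).card :=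
          Finset.card_nsmul_le_sum _ _ _ h1
      _ = 4 * n ^ 2 * L * ∑ x ∈ X, (pp G q M M' x).card := by rw [Finset.mul_sum]
      _ ≤ 4 * n ^ 2 * L * ∑ x : V, (pp G q M M' x).card :=
          Nat.mul_le_mul_left _ (Finset.sum_le_sum_of_subset (Finset.subset_univ _))
      _ ≤ _ := Nat.mul_le_mul_left _ (sum_pp G n q M M' hM)
  have h3 : M.card * (X.card * M'.card) ≤ M.card * (4 * L * n ^ 3 * q) := by
    calc M.card * (X.card * M'.card) = X.card * (M.card * M'.card) := by ring
      _ ≤ 4 * n ^ 2 * L * (M.card * n * q) := h2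
      _ = _ := by ring
  exact Nat.le_of_mul_le_mul_left h3 hM0

end Pool.Agent.H65.TL
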