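import Pool.Agent.H65.TL.Slot
import Pool.Agent.H65.TL.Fin
import Pool.Agent.H65.TL.NumOk

/-!
# Reduction to hosts with large minimum degree

Let `q = (k+1) n^(r-2)`, `D = (10k+20) n + n q + 2 n`, `E = low G (D+n) univ`, `|E| ≤ n` (`low_card`);
`G' = G.induce Eᶜ` (`SimpleGraph.comap`) has minimum degree at least `D`, is joined, has at least
`card V - n` vertices.  Apply `rounds` and `finish` to `G'`.
-/

set_option autoImplicit false
set_option linter.unusedSectionVars false

namespace Pool.Agent.H65.TL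

open Finset Pool.Agent.H38.Ram

variable {V : Type*} [DecidableEq V] [Fintype V] (G : SimpleGraph V) [DecidableRel G.Adj]

private lemma Red_num {k n r N : ℕ} (hr : 2 ≤ r) (hn : 1 ≤ n)
    (hV : 10000 * 2 ^ (k + r) * (k + 1) ^ 5 * n ^ r ≤ N) :
    n * ((10 * k + 20) * n + n * ((k + 1) * n ^ (r - 2)) + 2 * n + n) + 2 * n ≤ N := by
  refine le_trans ?_ hV
  have h1 : n ^ r = n * n * n ^ (r - 2) := by
    obtain ⟨s, rfl⟩ : ∃ s, r = s + 2 := ⟨r - 2, by omega⟩
    rw [Nat.add_sub_cancel, pow_add]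
    ring
  rw [h1]
  set P := n ^ (r - 2) with hP
  have hP1 : 1 ≤ P := Nat.one_le_pow _ _ hn
  have h2 : 1 ≤ 2 ^ (k + r) := Nat.one_le_two_pow
  have h3 : k + 1 ≤ (k + 1) ^ 5 := Nat.le_self_pow (by norm_num) _
  have h4 : n * n ≤ n * n * P := Nat.le_mul_of_pos_right _ hP1
  have h5 : n ≤ n * n * P := by
    refine le_trans ?_ h4
    exact Nat.le_mul_of_pos_right _ hn
  have h6 : n * ((10 * k + 20) * n + n * ((k + 1) * P) + 2 * n + n) + 2 * n
      = (10 * k + 23) * (n * n) + (k + 1) * (n * n * P) + 2 * n := by ring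
  rw [h6]
  have h7 : (10 * k + 23) * (n * n) ≤ (10 * k + 23) * (n * n * P) := Nat.mul_le_mul_left _ h4
  have h8 : (10 * k + 23) * (n * n * P) + (k + 1) * (n * n * P) + 2 * (n * n * P)
      = (11 * k + 26) * (n * n * P) := by ring
  have h9 : 11 * k + 26 ≤ 10000 * 2 ^ (k + r) * (k + 1) ^ 5 := by
    calc 11 * k + 26 ≤ 10000 * 1 * (k + 1) := by omega
      _ ≤ 10000 * 2 ^ (k + r) * (k + 1) ^ 5 :=
        Nat.mul_le_mul (Nat.mul_le_mul_left _ h2) h3
  have h10 := Nat.mul_le_mul_right (n * n * P) h9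
  omega

theorem embed {k : ℕ} {H : SimpleGraph (Fin k)} [DecidableRel H.Adj] {n r : ℕ} (hr : 2 ≤ r)
    (p : Fin k → ℕ) (T : Finset (Fin k)) (hH : Ordered H r p T) (hJ : Joined G n) (hn : 1 ≤ n)
    (hV : 10000 * 2 ^ (k + r) * (k + 1) ^ 5 * n ^ r ≤ Fintype.card V) :
    H.IsContained G := by
  classical
  set q : ℕ := (k + 1) * n ^ (r - 2) with hq
  set D : ℕ := (10 * k + 20) * n + n * q + 2 * n with hD
  set E : Finset V := low G (D + n) Finset.univ with hE
  have hEc : E.card < n := by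
    apply low_card G hJ
    rw [Finset.card_univ]
    have h1 := Red_num hr hn hV
    rw [hD, hq]
    exact h1
  let f : {v : V // v ∉ E} ↪ V := Function.Embedding.subtype _
  let G' : SimpleGraph {v : V // v ∉ E} := G.comap f
  have hadj : ∀ a b, G'.Adj a b ↔ G.Adj a.1 b.1 := fun a b => Iff.rfl
  have hJ' : Joined G' n := by
    intro A B hAB hA hB
    obtain ⟨a, ha, b, hb, hab⟩ := hJ (A.map f) (B.map f)
      ((Finset.disjoint_map f).2 hAB) (by rw [Finset.card_map]; exact hA)
      (by rw [Finset.card_map]; exact hB)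
    obtain ⟨a', ha', rfl⟩ := Finset.mem_map.1 ha
    obtain ⟨b', hb', rfl⟩ := Finset.mem_map.1 hb
    exact ⟨a', ha', b', hb', hab⟩
  have hcard : Fintype.card V ≤ Fintype.card {v : V // v ∉ E} + n := by
    have h1 : Fintype.card {v : V // v ∉ E} = (Finset.univ \ E).card := by
      rw [Fintype.card_subtype]
      congr 1
      ext v
      simp
    have h2 := Finset.card_sdiff_add_card (Finset.univ : Finset V) E
    have h3 : (Finset.univ : Finset V).card ≤ ((Finset.univ : Finset V) ∪ E).card :=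
      Finset.card_le_card Finset.subset_union_left
    rw [Finset.card_univ] at h3
    omega
  have hNum : Num n q D r k (Fintype.card {v : V // v ∉ E}) := num_ok hn hr (hV.trans hcard)
  have hmin : ∀ v : {v : V // v ∉ E}, D ≤ (nb G' Finset.univ v).card := by
    intro v
    have h1 : D + n ≤ (nb G Finset.univ v.1).card := (not_mem_low G).1 v.2
    have h2 : nb G Finset.univ v.1 \ E ⊆ (nb G' Finset.univ v).map f := by
      intro w hw
      rw [Finset.mem_sdiff, mem_nb] at hw
      rw [Finset.mem_map]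
      refine ⟨⟨w, hw.2⟩, ?_, rfl⟩
      rw [mem_nb]
      exact ⟨Finset.mem_univ _, hw.1.2⟩
    have h3 := Finset.card_le_card h2
    rw [Finset.card_map] at h3
    have h4 := Finset.le_card_sdiff E (nb G Finset.univ v.1)
    omega
  obtain ⟨φ, hφ⟩ := rounds G' hJ' hNum hmin p T hH
  have h1 : H.IsContained G' := finish G' hNum hmin p T hH hφ
  exact h1.trans ⟨(SimpleGraph.Embedding.comap f G).toCopy⟩

end Pool.Agent.H65.TL
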