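import Pool.Agent.H65.TL.Defs

/-!
# Few vertices `x` are poor with many of their neighbours in `M`

Proof: the sum over ALL `x` of `|{a ∈ N(x) ∩ M : a poor with x}|` is at most
`∑ a ∈ M, |poor a| ≤ |M| n` (`mem_poor_comm`), and every `x` of the set below contributes at least
`s / L ≥ |M| / (2 n L)`.
-/

set_option autoImplicit false
set_option linter.unusedSectionVars false

namespace Pool.Agent.H65.TL

open Finset Pool.Agent.H38.Ram

variable {V : Type*} [DecidableEq V] [Fintype V] (G : SimpleGraph V) [DecidableRel G.Adj]

theorem bad_self_card (L n q : ℕ) (M : Finset V) (hM0 : 0 < M.card)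
    (hM : ∀ a ∈ M, (poor G q Finset.univ a).card ≤ n) :
    (Finset.univ.filter (fun x => M.card ≤ 2 * n * (nb G M x).card ∧
      (nb G M x).card ≤ L * ((nb G M x).filter (fun a => a ∈ poor G q Finset.univ x)).card)).card
      ≤ 2 * L * n ^ 2 := by
  set X : Finset V := Finset.univ.filter (fun x => M.card ≤ 2 * n * (nb G M x).card ∧
      (nb G M x).card ≤ L * ((nb G M x).filter (fun a => a ∈ poor G q Finset.univ x)).card) with hX
  have h1 : ∀ x ∈ X, M.card ≤
      2 * n * L * ((nb G M x).filter (fun a => a ∈ poor G q Finset.univ x)).card := by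
    intro x hx
    obtain ⟨-, a1, a2⟩ := Finset.mem_filter.1 hx
    calc M.card ≤ 2 * n * (nb G M x).card := a1
      _ ≤ 2 * n * (L * ((nb G M x).filter (fun a => a ∈ poor G q Finset.univ x)).card) :=
          Nat.mul_le_mul_left _ a2
      _ = _ := by ring
  have h3 : ∑ x : V, ((nb G M x).filter (fun a => a ∈ poor G q Finset.univ x)).card
      ≤ M.card * n := by
    have e1 : ∀ x : V, ((nb G M x).filter (fun a => a ∈ poor G q Finset.univ x)).card ≤
        (M.filter (fun a => x ∈ poor G q Finset.univ a)).card := by
      intro x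
      apply Finset.card_le_card
      intro a ha
      rw [Finset.mem_filter] at ha ⊢
      exact ⟨((mem_nb G).1 ha.1).1, (mem_poor_comm G).1 ha.2⟩
    calc ∑ x : V, ((nb G M x).filter (fun a => a ∈ poor G q Finset.univ x)).card
        ≤ ∑ x : V, (M.filter (fun a => x ∈ poor G q Finset.univ a)).card :=
          Finset.sum_le_sum fun x _ => e1 x
      _ = ∑ a ∈ M, (Finset.univ.filter (fun x => x ∈ poor G q Finset.univ a)).card := by
          simp only [Finset.card_filter]
          exact Finset.sum_comm
      _ ≤ ∑ _a ∈ M, n := by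
          apply Finset.sum_le_sum
          intro a ha
          rw [Finset.filter_mem_eq_inter, Finset.univ_inter]
          exact hM a ha
      _ = M.card * n := by rw [Finset.sum_const, smul_eq_mul]
  have h2 : M.card * X.card ≤ M.card * (2 * L * n ^ 2) := by
    calc M.card * X.card = ∑ _x ∈ X, M.card := by rw [Finset.sum_const, smul_eq_mul, mul_comm]
      _ ≤ ∑ x ∈ X, 2 * n * L *
            ((nb G M x).filter (fun a => a ∈ poor G q Finset.univ x)).card :=
          Finset.sum_le_sum h1
      _ = 2 * n * L * ∑ x ∈ X,
            ((nb G M x).filter (fun a => a ∈ poor G q Finset.univ x)).card := by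
          rw [Finset.mul_sum]
      _ ≤ 2 * n * L * ∑ x : V,
            ((nb G M x).filter (fun a => a ∈ poor G q Finset.univ x)).card := by
          apply Nat.mul_le_mul_left
          exact Finset.sum_le_univ_sum_of_nonneg (fun _ => Nat.zero_le _)
      _ ≤ 2 * n * L * (M.card * n) := Nat.mul_le_mul_left _ h3
      _ = _ := by ring
  exact Nat.le_of_mul_le_mul_left h2 hM0

end Pool.Agent.H65.TL
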