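import Pool.Agent.H65.TL.Ext

/-!
# All rounds of the embedding

`slot v = p v` if `v` has at most one earlier neighbour, else the largest `p u`, `u ∈ back v`.
Facts: `slot v ≤ p v`.  If `v` is in the core and `u ∈ back v` then `slot u ≤ p u ≤ slot v`, and
`slot u = slot v` only if `u` is free, `p u = slot v` (if `back v` has at least two elements the
later one `x` is free, `slot v = p x`; `p` is injective).
Induction over `t`: `Old t = {v ∉ T, slot v < t}`; `ext` with `X = {v ∉ T, slot v = t, back v = ∅}`,
`I = {v ∉ T, slot v = t, back v ≠ ∅}`, `A v = {u ∈ back v : slot u < t}`.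
If `back v` has at least two elements then `x ∉ A v`, so `|A v| + 1 ≤ |back v|`.
-/

set_option autoImplicit false
set_option linter.unusedSectionVars false

namespace Pool.Agent.H65.TL

open Finset Pool.Agent.H38.Ram

variable {V : Type*} [DecidableEq V] [Fintype V] (G : SimpleGraph V) [DecidableRel G.Adj]

/-- The round in which `v` is embedded. -/
def slot {k : ℕ} (H : SimpleGraph (Fin k)) [DecidableRel H.Adj] (p : Fin k → ℕ)
    (v : Fin k) : ℕ :=
  if (back H p v).card ≤ 1 then p v else (back H p v).sup p

private lemma slot_le {k : ℕ} (H : SimpleGraph (Fin k)) [DecidableRel H.Adj] (p : Fin k → ℕ)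
    (v : Fin k) : slot H p v ≤ p v := by
  unfold slot
  split_ifs with h
  · exact le_rfl
  · exact Finset.sup_le fun u hu => (mem_back.1 hu).2.le

private lemma slot_ge {k : ℕ} (H : SimpleGraph (Fin k)) [DecidableRel H.Adj] (p : Fin k → ℕ)
    {u v : Fin k} (hv : v ∈ back H p u) : p v ≤ slot H p u := by
  unfold slot
  split_ifs with h
  · exact (mem_back.1 hv).2.le
  · exact Finset.le_sup (f := p) hv

private lemma slot_free {k : ℕ} (H : SimpleGraph (Fin k)) [DecidableRel H.Adj] (p : Fin k → ℕ)
    {v : Fin k} (h : back H p v = ∅) : slot H p v = p v := by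
  unfold slot
  rw [h, Finset.card_empty, if_pos (by omega)]

/-- the later neighbour of a vertex with at least two earlier neighbours is free -/
private lemma slot_two {k : ℕ} {H : SimpleGraph (Fin k)} [DecidableRel H.Adj] {r : ℕ}
    {p : Fin k → ℕ} {v : Fin k} (hc : CoreCond H r p v) (h : ¬ (back H p v).card ≤ 1) :
    ∃ x ∈ back H p v, back H p x = ∅ ∧ slot H p v = p x ∧
      ((back H p v).card ≤ 2 ∨ ((back H p v).card ≤ r ∧ ∀ u ∈ back H p v, back H p u = ∅)) := by
  have hs : slot H p v = (back H p v).sup p := by
    unfold slot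
    rw [if_neg h]
  rcases hc with h1 | ⟨h1, x, hx, hx0, hxm⟩ | ⟨h1, h2⟩
  · exact absurd h1 h
  · refine ⟨x, hx, hx0, ?_, Or.inl h1⟩
    rw [hs]
    exact le_antisymm (Finset.sup_le hxm) (Finset.le_sup (f := p) hx)
  · have hne : (back H p v).Nonempty := by
      rw [Finset.nonempty_iff_ne_empty]
      intro h0
      rw [h0, Finset.card_empty] at h
      omega
    obtain ⟨x, hx, hxm⟩ := Finset.exists_max_image (back H p v) p hne
    refine ⟨x, hx, h2 x hx, ?_, Or.inr ⟨h1, h2⟩⟩
    rw [hs]
    exact le_antisymm (Finset.sup_le hxm) (Finset.le_sup (f := p) hx)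

/-- the vertices embedded before round `t` -/
private def slot_old {k : ℕ} (H : SimpleGraph (Fin k)) [DecidableRel H.Adj] (p : Fin k → ℕ)
    (T : Finset (Fin k)) (t : ℕ) : Finset (Fin k) :=
  Finset.univ.filter (fun v => v ∉ T ∧ slot H p v < t)

private lemma slot_mem {k : ℕ} {H : SimpleGraph (Fin k)} [DecidableRel H.Adj] {p : Fin k → ℕ}
    {T : Finset (Fin k)} {t : ℕ} {v : Fin k} :
    v ∈ slot_old H p T t ↔ v ∉ T ∧ slot H p v < t := by
  simp [slot_old]

private lemma slot_ind {k : ℕ} {H : SimpleGraph (Fin k)} [DecidableRel H.Adj] {n q D r : ℕ}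
    (hJ : Joined G n) (hNum : Num n q D r k (Fintype.card V))
    (hmin : ∀ v : V, D ≤ (nb G Finset.univ v).card)
    (p : Fin k → ℕ) (T : Finset (Fin k)) (hH : Ordered H r p T) (t : ℕ) :
    ∃ φ : Fin k → V, St G H n q r (Finset.univ.filter (fun v => back H p v = ∅))
      (slot_old H p T t) φ := by
  classical
  induction t with
  | zero =>
    have hV : 0 < Fintype.card V := lt_of_le_of_lt (Nat.zero_le _) hNum.hV3
    obtain ⟨v0⟩ : Nonempty V := Fintype.card_pos_iff.1 hV
    have h0 : slot_old H p T 0 = ∅ := by
      ext v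
      rw [slot_mem]
      simp
    refine ⟨fun _ => v0, ?_⟩
    rw [h0]
    refine ⟨by simp, by simp, by simp, ?_⟩
    intro A hA _ _
    rw [Finset.subset_empty] at hA
    subst hA
    have : comN G (fun _ : Fin k => v0) ∅ = Finset.univ := by
      ext z
      simp [mem_comN]
    rw [this, Finset.card_empty, pow_zero, one_mul, Finset.card_univ]
  | succ t ih =>
    obtain ⟨φ, hφ⟩ := ih
    obtain ⟨hinj, hord⟩ := hH
    set F : Finset (Fin k) := Finset.univ.filter (fun v => back H p v = ∅) with hF
    have memF : ∀ v, v ∈ F ↔ back H p v = ∅ := fun v => by simp [hF]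
    set X : Finset (Fin k) := Finset.univ.filter
      (fun v => v ∉ T ∧ slot H p v = t ∧ back H p v = ∅) with hX
    set I : Finset (Fin k) := Finset.univ.filter
      (fun v => v ∉ T ∧ slot H p v = t ∧ back H p v ≠ ∅) with hI
    have memX : ∀ v, v ∈ X ↔ v ∉ T ∧ slot H p v = t ∧ back H p v = ∅ := fun v => by simp [hX]
    have memI : ∀ v, v ∈ I ↔ v ∉ T ∧ slot H p v = t ∧ back H p v ≠ ∅ := fun v => by simp [hI]
    have hun : slot_old H p T (t + 1) = slot_old H p T t ∪ X ∪ I := by
      ext v
      rw [Finset.mem_union, Finset.mem_union, slot_mem, slot_mem, memX, memI]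
      constructor
      · rintro ⟨h1, h2⟩
        rcases Nat.lt_or_ge (slot H p v) t with h3 | h3
        · exact Or.inl (Or.inl ⟨h1, h3⟩)
        · have h4 : slot H p v = t := by omega
          by_cases h5 : back H p v = ∅
          · exact Or.inl (Or.inr ⟨h1, h4, h5⟩)
          · exact Or.inr ⟨h1, h4, h5⟩
      · rintro ((⟨h1, h2⟩ | ⟨h1, h2, -⟩) | ⟨h1, h2, -⟩)
        · exact ⟨h1, by omega⟩
        · exact ⟨h1, by omega⟩
        · exact ⟨h1, by omega⟩
    have hne : ∀ u v : Fin k, H.Adj u v → p u < p v ∨ p v < p u := by
      intro u v h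
      rcases lt_trichotomy (p u) (p v) with h1 | h1 | h1
      · exact Or.inl h1
      · exact absurd (hinj h1) h.ne
      · exact Or.inr h1
    rw [hun]
    refine ext G hJ hNum hmin hφ I X (fun v => (back H p v).filter (fun u => slot H p u < t))
      ?_ ?_ ?_ ?_ ?_ ?_ ?_ ?_ ?_
    · rw [Finset.disjoint_left]
      intro v hv hv'
      rw [slot_mem] at hv
      rw [memI] at hv'
      omega
    · rw [Finset.disjoint_left]
      intro v hv hv'
      rw [slot_mem] at hv
      rw [memX] at hv'
      omega
    · rw [Finset.disjoint_left]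
      intro v hv hv'
      rw [memI] at hv
      rw [memX] at hv'
      exact hv.2.2 hv'.2.2
    · rw [Finset.card_le_one]
      intro u hu v hv
      rw [memX] at hu hv
      apply hinj
      rw [← slot_free H p hu.2.2, ← slot_free H p hv.2.2, hu.2.1, hv.2.1]
    · rw [Finset.disjoint_left]
      intro v hv hv'
      rw [memI] at hv
      exact hv.2.2 ((memF v).1 hv')
    · intro v hv
      rw [memI] at hv
      obtain ⟨hvT, hvt, hv0⟩ := hv
      have hcore := (hord v).1 hvT
      refine ⟨?_, ?_⟩
      · intro u hu
        rw [Finset.mem_filter] at hu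
        rw [slot_mem]
        exact ⟨hcore.1 u hu.1, hu.2⟩
      · by_cases h1 : (back H p v).card ≤ 1
        · exact Or.inl ((Finset.card_filter_le _ _).trans h1)
        · obtain ⟨x, hx, hx0, hsx, hor⟩ := slot_two hcore.2 h1
          have hxn : x ∉ (back H p v).filter (fun u => slot H p u < t) := by
            rw [Finset.mem_filter]
            rintro ⟨-, h2⟩
            rw [slot_free H p hx0] at h2
            omega
          have hlt : ((back H p v).filter (fun u => slot H p u < t)).card <
              (back H p v).card := by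
            refine Finset.card_lt_card ⟨Finset.filter_subset _ _, fun h => hxn (h hx)⟩
          rcases hor with h2 | ⟨h2, h3⟩
          · left
            omega
          · right
            refine ⟨?_, by omega⟩
            intro u hu
            rw [Finset.mem_filter] at hu
            exact (memF u).2 (h3 u hu.1)
    · intro v hv u hu huv
      rw [memI] at hv
      rw [slot_mem] at hu
      rw [Finset.mem_filter]
      refine ⟨?_, hu.2⟩
      rw [mem_back]
      refine ⟨huv, ?_⟩
      rcases hne u v huv with h1 | h1
      · exact h1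
      · exfalso
        have h2 : v ∈ back H p u := mem_back.2 ⟨huv.symm, h1⟩
        have h3 := slot_ge H p h2
        have h4 := slot_le H p v
        omega
    · have key : ∀ u v : Fin k, u ∈ I → v ∈ I → H.Adj u v → p u < p v → False := by
        intro u v hu hv huv hlt
        rw [memI] at hu hv
        have h2 : u ∈ back H p v := mem_back.2 ⟨huv, hlt⟩
        have h3 := slot_ge H p h2
        have h4 := slot_le H p u
        have hcore := ((hord v).1 hv.1).2
        by_cases h1 : (back H p v).card ≤ 1
        · have h5 : slot H p v = p v := by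
            unfold slot
            rw [if_pos h1]
          omega
        · obtain ⟨x, hx, hx0, hsx, -⟩ := slot_two hcore h1
          have h6 : p u = p x := by omega
          have h7 := hinj h6
          subst h7
          exact hu.2.2 hx0
      intro v hv u hu huv
      rcases hne u v huv with h1 | h1
      · exact key u v hu hv huv h1
      · exact key v u hv hu huv.symm h1
    · intro x hx u hu hux
      rw [memX] at hx
      rw [slot_mem] at hu
      rcases hne u x hux with h1 | h1
      · have h2 : u ∈ back H p x := mem_back.2 ⟨hux, h1⟩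
        rw [hx.2.2] at h2
        exact absurd h2 (Finset.notMem_empty u)
      · have h2 : x ∈ back H p u := mem_back.2 ⟨hux.symm, h1⟩
        have h3 := slot_ge H p h2
        have h4 := slot_le H p x
        omega

theorem rounds {k : ℕ} {H : SimpleGraph (Fin k)} [DecidableRel H.Adj] {n q D r : ℕ}
    (hJ : Joined G n) (hNum : Num n q D r k (Fintype.card V))
    (hmin : ∀ v : V, D ≤ (nb G Finset.univ v).card)
    (p : Fin k → ℕ) (T : Finset (Fin k)) (hH : Ordered H r p T) :
    ∃ φ : Fin k → V, St G H n q r (Finset.univ.filter (fun v => back H p v = ∅))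
      (Finset.univ.filter (fun v => v ∉ T)) φ := by
  classical
  obtain ⟨φ, hφ⟩ := slot_ind G hJ hNum hmin p T hH
    ((Finset.univ : Finset (Fin k)).sup (slot H p) + 1)
  refine ⟨φ, ?_⟩
  have h : slot_old H p T ((Finset.univ : Finset (Fin k)).sup (slot H p) + 1) =
      Finset.univ.filter (fun v => v ∉ T) := by
    ext v
    rw [slot_mem, Finset.mem_filter]
    constructor
    · rintro ⟨h1, -⟩
      exact ⟨Finset.mem_univ v, h1⟩
    · rintro ⟨-, h1⟩
      exact ⟨h1, Nat.lt_succ_of_le (Finset.le_sup (f := slot H p) (Finset.mem_univ v))⟩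
  rw [h] at hφ
  exact hφ

end Pool.Agent.H65.TL
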