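import Mathlib

/-!
# Transversals without bad pairs

Proof: induction over subsets `J` of `I`.  Invariant: `y i ∈ S i`, `¬ Q (y i)`, for all `j ∈ I`,
`j ≠ i`: `m * #{b ∈ S j : R (y i) b} ≤ #(S j)`; different `i, i' ∈ J`: `y i ≠ y i'`, no `R`.
New index `i`: avoid in `S i`: the elements with `Q` (`m² #Q ≤ s_i`); for every `j ∈ I`, `j ≠ i` the
heavy elements `a` (`s_j < m #{b ∈ S j : R a b}`; `m * #Heavy * s_j ≤ m² #pairs ≤ s_i s_j`, so
`m * #Heavy ≤ s_i`); for every `i' ∈ J` the element `y i'` and the set `{b ∈ S i : R (y i') b}`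
(`m * card ≤ s_i`).  Total times `m`: at most `2 |I| s_i + s_i + m |I| < m s_i`.
-/

set_option autoImplicit false

namespace Pool.Agent.H65.TL

open Finset

private lemma Trans_heavy {V : Type*} [DecidableEq V] (A B : Finset V) (R : V → V → Prop)
    [DecidableRel R] (m : ℕ) (hB : 0 < B.card)
    (h : m * m * ((A ×ˢ B).filter (fun p => R p.1 p.2)).card ≤ A.card * B.card) :
    m * (A.filter (fun a => B.card < m * (B.filter (fun b => R a b)).card)).card ≤ A.card := by
  set H := A.filter (fun a => B.card < m * (B.filter (fun b => R a b)).card) with hH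
  have e1 : ((A ×ˢ B).filter (fun p => R p.1 p.2)).card =
      ∑ a ∈ A, (B.filter (fun b => R a b)).card := by
    rw [card_filter, sum_product]
    refine sum_congr rfl fun a _ => ?_
    rw [card_filter]
  have e2 : ∑ a ∈ H, B.card ≤ ∑ a ∈ H, m * (B.filter (fun b => R a b)).card :=
    sum_le_sum fun a ha => (mem_filter.1 ha).2.le
  have e3 : ∑ a ∈ H, m * (B.filter (fun b => R a b)).card ≤
      ∑ a ∈ A, m * (B.filter (fun b => R a b)).card :=
    sum_le_sum_of_subset (filter_subset _ _)
  rw [sum_const, smul_eq_mul] at e2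
  rw [← mul_sum, ← mul_sum, ← e1] at e3
  rw [← mul_sum] at e2
  have e4 : m * (H.card * B.card) ≤ A.card * B.card := by
    calc m * (H.card * B.card) ≤ m * (m * ((A ×ˢ B).filter (fun p => R p.1 p.2)).card) :=
          Nat.mul_le_mul_left m (e2.trans e3)
      _ = m * m * ((A ×ˢ B).filter (fun p => R p.1 p.2)).card := by ring
      _ ≤ _ := h
  have e5 : (m * H.card) * B.card ≤ A.card * B.card := by
    rw [mul_assoc]
    exact e4
  exact Nat.le_of_mul_le_mul_right e5 hB

theorem transversal {ι V : Type*} [DecidableEq ι] [DecidableEq V] [Nonempty V] (I : Finset ι)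
    (S : ι → Finset V) (R : V → V → Prop) [DecidableRel R] (hsymm : ∀ a b, R a b → R b a)
    (Q : V → Prop) [DecidablePred Q] (m : ℕ) (hm : 4 * (I.card + 1) ≤ m)
    (hS : ∀ i ∈ I, 4 * (I.card + 1) ≤ (S i).card)
    (hQ : ∀ i ∈ I, m * m * ((S i).filter Q).card ≤ (S i).card)
    (hR : ∀ i ∈ I, ∀ j ∈ I, i ≠ j →
      m * m * (((S i) ×ˢ (S j)).filter (fun p => R p.1 p.2)).card ≤ (S i).card * (S j).card) :
    ∃ y : ι → V, (∀ i ∈ I, y i ∈ S i ∧ ¬ Q (y i)) ∧
      ∀ i ∈ I, ∀ j ∈ I, i ≠ j → y i ≠ y j ∧ ¬ R (y i) (y j) := by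
  have hm1 : 1 ≤ m := by omega
  have key : ∀ J : Finset ι, J ⊆ I → ∃ y : ι → V, (∀ i ∈ J, y i ∈ S i ∧ ¬ Q (y i) ∧
      ∀ j ∈ I, j ≠ i → m * ((S j).filter (fun b => R (y i) b)).card ≤ (S j).card) ∧
      ∀ i ∈ J, ∀ j ∈ J, i ≠ j → y i ≠ y j ∧ ¬ R (y i) (y j) := by
    intro J
    induction J using Finset.induction_on with
    | empty => exact fun _ => ⟨fun _ => Classical.arbitrary V, by simp, by simp⟩
    | insert i J hiJ ih =>
      intro hJI
      obtain ⟨y, hy1, hy2⟩ := ih fun j hj => hJI (mem_insert_of_mem hj)
      have hiI : i ∈ I := hJI (mem_insert_self _ _)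
      have hJc : J.card + 1 ≤ I.card := by
        rw [← card_insert_of_notMem hiJ]
        exact card_le_card hJI
      set H : ι → Finset V := fun j =>
        (S i).filter (fun a => (S j).card < m * ((S j).filter (fun b => R a b)).card) with hH
      set W : ι → Finset V := fun j => (S i).filter (fun b => R (y j) b) with hW
      have hHc : ∀ j ∈ I.erase i, m * (H j).card ≤ (S i).card := by
        intro j hj
        obtain ⟨hji, hjI⟩ := mem_erase.1 hj
        have h0 := hS j hjI
        exact Trans_heavy (S i) (S j) R m (by omega) (hR i hiI j hjI (Ne.symm hji))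
      have hWc : ∀ j ∈ J, m * (W j).card ≤ (S i).card := by
        intro j hj
        exact (hy1 j hj).2.2 i hiI fun h => hiJ (h ▸ hj)
      have hQc : m * ((S i).filter Q).card ≤ (S i).card := by
        refine le_trans ?_ (hQ i hiI)
        rw [mul_assoc]
        exact Nat.le_mul_of_pos_left _ hm1
      obtain ⟨a, haS, ha⟩ : ∃ a ∈ S i, a ∉ (S i).filter Q ∪ (I.erase i).biUnion H ∪
          (J.image y ∪ J.biUnion W) := by
        by_contra hcon
        push Not at hcon
        have hsub : S i ⊆ (S i).filter Q ∪ (I.erase i).biUnion H ∪ (J.image y ∪ J.biUnion W) :=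
          fun a ha => hcon a ha
        have h1 : (S i).card ≤ ((S i).filter Q).card + ∑ j ∈ I.erase i, (H j).card +
            (J.card + ∑ j ∈ J, (W j).card) := by
          refine (card_le_card hsub).trans ((card_union_le _ _).trans (Nat.add_le_add ?_ ?_))
          · exact (card_union_le _ _).trans (Nat.add_le_add_left card_biUnion_le _)
          · exact (card_union_le _ _).trans (Nat.add_le_add card_image_le card_biUnion_le)
        have h2 : m * (S i).card ≤ m * ((S i).filter Q).card + ∑ j ∈ I.erase i, m * (H j).card +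
            (m * J.card + ∑ j ∈ J, m * (W j).card) := by
          calc m * (S i).card ≤ m * (((S i).filter Q).card + ∑ j ∈ I.erase i, (H j).card +
            (J.card + ∑ j ∈ J, (W j).card)) := Nat.mul_le_mul_left m h1
            _ = _ := by rw [mul_add, mul_add, mul_add, mul_sum, mul_sum]
        have h3 : ∑ j ∈ I.erase i, m * (H j).card ≤ (I.card - 1) * (S i).card := by
          calc ∑ j ∈ I.erase i, m * (H j).card ≤ ∑ _j ∈ I.erase i, (S i).card :=
                sum_le_sum hHc
            _ = (I.card - 1) * (S i).card := by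
                rw [sum_const, smul_eq_mul, card_erase_of_mem hiI]
        have h4 : ∑ j ∈ J, m * (W j).card ≤ J.card * (S i).card := by
          calc ∑ j ∈ J, m * (W j).card ≤ ∑ _j ∈ J, (S i).card := sum_le_sum hWc
            _ = J.card * (S i).card := by rw [sum_const, smul_eq_mul]
        obtain ⟨N, hN⟩ : ∃ N, I.card = N + 1 := ⟨I.card - 1, by omega⟩
        have h5 : J.card ≤ N := by omega
        have h6 : J.card * (S i).card ≤ N * (S i).card := Nat.mul_le_mul_right _ h5
        have h7 : m * J.card ≤ m * N := Nat.mul_le_mul_left _ h5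
        rw [hN] at h3 hm
        have h8 : 4 * (N + 1 + 1) ≤ (S i).card := by
          have := hS i hiI
          rwa [hN] at this
        simp only [Nat.add_sub_cancel] at h3
        have h9 : m * (S i).card ≤ (S i).card + N * (S i).card + (m * N + N * (S i).card) := by
          omega
        have h10 : m * (4 * (N + 1 + 1)) ≤ m * (S i).card := Nat.mul_le_mul_left m h8
        have h11 : 4 * (N + 1 + 1) * (S i).card ≤ m * (S i).card := Nat.mul_le_mul_right _ hm
        nlinarith
      simp only [mem_union, mem_biUnion, mem_filter, mem_image, not_or, not_exists, not_and] at ha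
      obtain ⟨⟨ha1, ha2⟩, ha3, ha4⟩ := ha
      refine ⟨Function.update y i a, ?_, ?_⟩
      · intro j hj
        by_cases hji : j = i
        · subst hji
          rw [Function.update_self]
          refine ⟨haS, ha1 haS, fun l hl hlj => ?_⟩
          have h := ha2 l (mem_erase.2 ⟨hlj, hl⟩)
          rw [hH] at h
          simp only [mem_filter, not_and, not_lt] at h
          exact h haS
        · rw [Function.update_of_ne hji]
          exact hy1 j ((mem_insert.1 hj).resolve_left hji)
      · have hnew : ∀ j ∈ J, y j ≠ a ∧ ¬ R (y j) a := by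
          intro j hj
          refine ⟨fun h => ha3 j hj h, fun h => ha4 j hj ?_⟩
          rw [hW]
          exact mem_filter.2 ⟨haS, h⟩
        intro j hj l hl hjl
        by_cases hji : j = i
        · subst hji
          have hlj : l ≠ j := Ne.symm hjl
          rw [Function.update_self, Function.update_of_ne hlj]
          obtain ⟨h1, h2⟩ := hnew l ((mem_insert.1 hl).resolve_left hlj)
          exact ⟨Ne.symm h1, fun h => h2 (hsymm _ _ h)⟩
        · rw [Function.update_of_ne hji]
          have hj' := (mem_insert.1 hj).resolve_left hji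
          by_cases hli : l = i
          · subst hli
            rw [Function.update_self]
            exact hnew j hj'
          · rw [Function.update_of_ne hli]
            exact hy2 j hj' l ((mem_insert.1 hl).resolve_left hli) hjl
  obtain ⟨y, h1, h2⟩ := key I (Subset.refl I)
  exact ⟨y, fun i hi => ⟨(h1 i hi).1, (h1 i hi).2.1⟩, h2⟩

end Pool.Agent.H65.TL
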