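import Pool.Agent.H65.TL.Low
import Pool.Agent.H65.TL.PairC
import Pool.Agent.H65.TL.SelfC
import Pool.Agent.H65.TL.Trans

/-!
# The step lemma

Let `m = 4(k+1)`, `L = m²`.  Bad `x`: `x ∈ B`; `x` with `2 n s_i(x) < |M i|` for some `i` (at most
`n` each, `low_half`); `x` with `s_i ≤ L #{a ∈ N(x) ∩ M i poor with x}` (`bad_self_card`); `x` with
`s_i s_j ≤ L #(poor pairs)` for some `i ≠ j` (`bad_pair_card`, divide by `|M j| ≥ n`).  A vertex `x`
outside satisfies the hypotheses of `transversal` with `S i = nb G (M i) x`,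
`R a b = b ∈ poor a`, `Q a = a ∈ poor x`; `s_i ≥ |M i|/(2n) ≥ 4(k+1)`.
-/

set_option autoImplicit false
set_option linter.unusedSectionVars false

namespace Pool.Agent.H65.TL

open Finset Pool.Agent.H38.Ram

variable {V : Type*} [DecidableEq V] [Fintype V] (G : SimpleGraph V) [DecidableRel G.Adj]

theorem step {ι : Type*} [DecidableEq ι] {n q k : ℕ} (hJ : Joined G n) (hn : 1 ≤ n)
    (I : Finset ι) (hI : I.card ≤ k) (M : ι → Finset V)
    (hM : ∀ i ∈ I, 8 * (k + 1) * n ≤ (M i).card)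
    (hpoor : ∀ i ∈ I, ∀ a ∈ M i, (poor G q Finset.univ a).card ≤ n) (B : Finset V)
    (hN : B.card + k * n + k * (2 * (16 * (k + 1) ^ 2) * n ^ 2)
      + k * k * (4 * (16 * (k + 1) ^ 2) * n ^ 2 * q) < Fintype.card V) :
    ∃ x : V, x ∉ B ∧ ∃ y : ι → V,
      (∀ i ∈ I, y i ∈ M i ∧ G.Adj x (y i) ∧ y i ∉ poor G q Finset.univ x) ∧
      ∀ i ∈ I, ∀ j ∈ I, i ≠ j → y i ≠ y j ∧ y j ∉ poor G q Finset.univ (y i) := by
  classical
  have hL : (4 * (k + 1)) * (4 * (k + 1)) = 16 * (k + 1) ^ 2 := by ring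
  set L : ℕ := 16 * (k + 1) ^ 2 with hLdef
  set A1 : ι → Finset V := fun i =>
    Finset.univ.filter (fun x => 2 * n * (nb G (M i) x).card < (M i).card) with hA1
  set A2 : ι → Finset V := fun i => Finset.univ.filter (fun x =>
    (M i).card ≤ 2 * n * (nb G (M i) x).card ∧ (nb G (M i) x).card ≤
      L * ((nb G (M i) x).filter (fun a => a ∈ poor G q Finset.univ x)).card) with hA2
  set A3 : ι × ι → Finset V := fun p => Finset.univ.filter (fun x =>
    (M p.1).card ≤ 2 * n * (nb G (M p.1) x).card ∧ (M p.2).card ≤ 2 * n * (nb G (M p.2) x).card ∧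
      (nb G (M p.1) x).card * (nb G (M p.2) x).card ≤ L * (pp G q (M p.1) (M p.2) x).card) with hA3
  have hMn : ∀ i ∈ I, 8 * n ≤ (M i).card := by
    intro i hi
    refine le_trans ?_ (hM i hi)
    exact Nat.mul_le_mul_right n (by omega)
  have c1 : (I.biUnion A1).card ≤ k * n := by
    refine (Finset.card_biUnion_le_card_mul I A1 n fun i hi => ?_).trans
      (Nat.mul_le_mul_right n hI)
    exact low_half G hJ hn (M i) (by have := hMn i hi; omega)
  have c2 : (I.biUnion A2).card ≤ k * (2 * L * n ^ 2) := by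
    refine (Finset.card_biUnion_le_card_mul I A2 (2 * L * n ^ 2) fun i hi => ?_).trans
      (Nat.mul_le_mul_right _ hI)
    exact bad_self_card G L n q (M i) (by have := hMn i hi; omega) (hpoor i hi)
  have c3 : ((I ×ˢ I).biUnion A3).card ≤ k * k * (4 * L * n ^ 2 * q) := by
    refine (Finset.card_biUnion_le_card_mul (I ×ˢ I) A3 (4 * L * n ^ 2 * q) fun p hp => ?_).trans ?_
    · rw [Finset.mem_product] at hp
      have h1 := bad_pair_card G L n q (M p.1) (M p.2) (by have := hMn p.1 hp.1; omega)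
        (hpoor p.1 hp.1)
      have h2 : (A3 p).card * n ≤ (4 * L * n ^ 2 * q) * n := by
        calc (A3 p).card * n ≤ (A3 p).card * (M p.2).card :=
              Nat.mul_le_mul_left _ (by have := hMn p.2 hp.2; omega)
          _ ≤ 4 * L * n ^ 3 * q := h1
          _ = (4 * L * n ^ 2 * q) * n := by ring
      exact Nat.le_of_mul_le_mul_right h2 (by omega)
    · refine Nat.mul_le_mul_right _ ?_
      rw [Finset.card_product]
      exact Nat.mul_le_mul hI hI
  have hlt : (B ∪ I.biUnion A1 ∪ I.biUnion A2 ∪ (I ×ˢ I).biUnion A3).card < Fintype.card V := by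
    refine lt_of_le_of_lt ?_ hN
    refine (Finset.card_union_le _ _).trans (Nat.add_le_add ?_ c3)
    refine (Finset.card_union_le _ _).trans (Nat.add_le_add ?_ c2)
    exact (Finset.card_union_le _ _).trans (Nat.add_le_add_left c1 _)
  obtain ⟨x, hx⟩ : ∃ x : V, x ∉ B ∪ I.biUnion A1 ∪ I.biUnion A2 ∪ (I ×ˢ I).biUnion A3 := by
    by_contra hcon
    push Not at hcon
    have h1 : (Finset.univ : Finset V) ⊆ B ∪ I.biUnion A1 ∪ I.biUnion A2 ∪ (I ×ˢ I).biUnion A3 :=
      fun y _ => hcon y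
    have h2 := Finset.card_le_card h1
    rw [Finset.card_univ] at h2
    omega
  rw [Finset.mem_union, Finset.mem_union, Finset.mem_union, not_or, not_or, not_or] at hx
  obtain ⟨⟨⟨hxB, hx1⟩, hx2⟩, hx3⟩ := hx
  have e1 : ∀ i ∈ I, (M i).card ≤ 2 * n * (nb G (M i) x).card := by
    intro i hi
    by_contra hcon
    refine hx1 (Finset.mem_biUnion.2 ⟨i, hi, ?_⟩)
    simp only [hA1, Finset.mem_filter, Finset.mem_univ, true_and]
    omega
  have e2 : ∀ i ∈ I, L * ((nb G (M i) x).filter (fun a => a ∈ poor G q Finset.univ x)).card ≤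
      (nb G (M i) x).card := by
    intro i hi
    by_contra hcon
    refine hx2 (Finset.mem_biUnion.2 ⟨i, hi, ?_⟩)
    simp only [hA2, Finset.mem_filter, Finset.mem_univ, true_and]
    exact ⟨e1 i hi, by omega⟩
  have e3 : ∀ i ∈ I, ∀ j ∈ I, L * (pp G q (M i) (M j) x).card ≤
      (nb G (M i) x).card * (nb G (M j) x).card := by
    intro i hi j hj
    by_contra hcon
    refine hx3 (Finset.mem_biUnion.2 ⟨(i, j), Finset.mem_product.2 ⟨hi, hj⟩, ?_⟩)
    simp only [hA3, Finset.mem_filter, Finset.mem_univ, true_and]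
    exact ⟨e1 i hi, e1 j hj, by omega⟩
  have : Nonempty V := ⟨x⟩
  obtain ⟨y, hy1, hy2⟩ := transversal I (fun i => nb G (M i) x)
    (fun a b => b ∈ poor G q Finset.univ a) (fun a b hab => (mem_poor_comm G).1 hab)
    (fun a => a ∈ poor G q Finset.univ x) (4 * (k + 1))
    (Nat.mul_le_mul_left 4 (Nat.add_le_add_right hI 1))
    (fun i hi => by
      have h1 := e1 i hi
      have h2 := hM i hi
      have h3 : (4 * (k + 1)) * (2 * n) ≤ (nb G (M i) x).card * (2 * n) := by
        calc (4 * (k + 1)) * (2 * n) = 8 * (k + 1) * n := by ring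
          _ ≤ (M i).card := h2
          _ ≤ 2 * n * (nb G (M i) x).card := h1
          _ = (nb G (M i) x).card * (2 * n) := by ring
      have h4 := Nat.le_of_mul_le_mul_right h3 (by omega)
      refine le_trans ?_ h4
      exact Nat.mul_le_mul_left 4 (Nat.add_le_add_right hI 1))
    (fun i hi => by rw [hL]; exact e2 i hi)
    (fun i hi j hj _ => by rw [hL]; exact e3 i hi j hj)
  refine ⟨x, hxB, y, fun i hi => ?_, fun i hi j hj hij => hy2 i hi j hj hij⟩
  have h1 := hy1 i hi
  have h2 := (mem_nb G).1 h1.1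
  exact ⟨h2.1, h2.2, h1.2⟩

end Pool.Agent.H65.TL
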